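import Pool.Agent.H439_Hyper.Steps

/-!
# The second partite construction and the completion
-/

set_option autoImplicit false

namespace Pool.Agent.H439_Hyper

open Finset Function

/-- the four `f`-values of an increasing quadruple of the completion -/
theorem completion_aux (Gab Gac Gad Gbc Gbd Gcd Fabc Fabd Facd Fbcd : Prop)
    (h : Alt4 (Gab ∧ Gbc → Gac ∧ Fabc) (Gab ∧ Gbd → Gad ∧ Fabd) (Gac ∧ Gcd → Gad ∧ Facd)
      (Gbc ∧ Gcd → Gbd ∧ Fbcd)) :
    Gab ∧ Gac ∧ Gad ∧ Gbc ∧ Gbd ∧ Gcd ∧ Alt4 Fabc Fabd Facd Fbcd := by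
  unfold Alt4 at *
  by_cases h1 : Gab <;> by_cases h2 : Gac <;> by_cases h3 : Gad <;> by_cases h4 : Gbc <;>
    by_cases h5 : Gbd <;> by_cases h6 : Gcd <;> simp_all <;> tauto

/-- The class of all finite linearly ordered `H_4`-free 3-hypertournaments is Ramsey. -/
theorem step2 {m n : ℕ} (fA : Fin m → Fin m → Fin m → Prop) (fB : Fin n → Fin n → Fin n → Prop)
    (hA : NoAlt fA) (hB : NoAlt fB) (κ : Type) [Finite κ] [Nonempty κ] :
    ∃ (V : Type) (_ : LinearOrder V) (_ : Finite V) (f : V → V → V → Prop),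
      NoAlt f ∧ Arrow fA fB f κ := by
  classical
  obtain ⟨I, _, _, f0, hI⟩ := step1 fA fB κ
  have hfin : Finite (Fin n ↪o I) := Finite.of_injective (fun b : Fin n ↪o I => (b : Fin n → I))
    DFunLike.coe_injective
  obtain ⟨Q, hQ, hD⟩ := general (I := I) (Idx := {b : Fin n ↪o I // Pres fB f0 b}) (κ := κ)
    (fun b => img b.1)
    (fun b t => t.card = 2)
    (fun α t => t.card = 2)
    (fun α => ∃ a : Fin m ↪o I, Pres fA f0 a ∧ α = img a)
    (fun b α => ∃ a : Fin m ↪o Fin n, Pres fA fB a ∧ α = img (a.trans b.1))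
    (by
      intro b t ht
      rw [← Finset.card_pos, ht]
      exact two_pos)
    (by
      rintro b α ⟨a, ha, rfl⟩
      refine ⟨?_, ⟨a.trans b.1, ?_, rfl⟩, fun _ _ => Iff.rfl⟩
      · intro v hv
        obtain ⟨x, rfl⟩ := mem_img.1 hv
        exact mem_img.2 ⟨a x, rfl⟩
      · intro x y z hxy hyz
        exact (b.2 _ _ _ (a.strictMono hxy) (a.strictMono hyz)).trans (ha x y z hxy hyz))
    (by
      intro χ
      obtain ⟨b, hb, c, hc⟩ := hI χ
      refine ⟨⟨b, hb⟩, c, ?_⟩
      rintro α ⟨a, ha, rfl⟩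
      exact hc a ha)
  -- no alternating quadruples over a clique
  have hDD := hD (fun t => ∀ w ∈ t, ∀ x ∈ t, ∀ y ∈ t, ∀ z ∈ t, w < x → x < y → y < z →
      ¬ Alt4 (f0 w x y) (f0 w x z) (f0 w y z) (f0 x y z))
    (by
      rintro α ⟨a, ha, rfl⟩ t ht w hw x hx y hy z hz hwx hxy hyz
      obtain ⟨w, rfl⟩ := mem_img.1 (ht hw)
      obtain ⟨x, rfl⟩ := mem_img.1 (ht hx)
      obtain ⟨y, rfl⟩ := mem_img.1 (ht hy)
      obtain ⟨z, rfl⟩ := mem_img.1 (ht hz)
      have h1 := a.lt_iff_lt.1 hwx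
      have h2 := a.lt_iff_lt.1 hxy
      have h3 := a.lt_iff_lt.1 hyz
      rw [ha _ _ _ h1 h2, ha _ _ _ h1 (h2.trans h3), ha _ _ _ (h1.trans h2) h3, ha _ _ _ h2 h3]
      exact hA w x y z h1 h2 h3)
    (by
      rintro ⟨b, hb⟩ t ht w hw x hx y hy z hz hwx hxy hyz
      obtain ⟨w, rfl⟩ := mem_img.1 (ht hw)
      obtain ⟨x, rfl⟩ := mem_img.1 (ht hx)
      obtain ⟨y, rfl⟩ := mem_img.1 (ht hy)
      obtain ⟨z, rfl⟩ := mem_img.1 (ht hz)
      have h1 := b.lt_iff_lt.1 hwx
      have h2 := b.lt_iff_lt.1 hxy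
      have h3 := b.lt_iff_lt.1 hyz
      rw [hb _ _ _ h1 h2, hb _ _ _ h1 (h2.trans h3), hb _ _ _ (h1.trans h2) h3, hb _ _ _ h2 h3]
      exact hB w x y z h1 h2 h3)
  have := Q.fin
  obtain ⟨lo⟩ := exists_linearOrder Q.X
  -- the graph of the marked pairs
  let G : Lex (I × Q.X) → Lex (I × Q.X) → Prop := fun p q =>
    (ofLex p).1 ≠ (ofLex q).1 ∧ ∃ s : I → Q.X, s (ofLex p).1 = (ofLex p).2 ∧
      s (ofLex q).1 = (ofLex q).2 ∧ Q.S {(ofLex p).1, (ofLex q).1} s
  let F : Lex (I × Q.X) → Lex (I × Q.X) → Lex (I × Q.X) → Prop := fun p q r =>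
    f0 (ofLex p).1 (ofLex q).1 (ofLex r).1
  have hG : ∀ p q, p < q → G p q → (ofLex p).1 < (ofLex q).1 := by
    intro p q hpq hg
    exact lt_of_le_of_ne (Prod.Lex.lt_iff'.1 hpq).1 hg.1
  refine ⟨Lex (I × Q.X), inferInstance, inferInstanceAs (Finite (I × Q.X)),
    fun p q r => G p q ∧ G q r → G p r ∧ F p q r, ?_, fun χ => ?_⟩
  · intro a b c d hab hbc hcd halt
    obtain ⟨gab, gac, gad, gbc, gbd, gcd', hF⟩ := completion_aux _ _ _ _ _ _ _ _ _ _ halt
    have h1 := hG a b hab gab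
    have h2 := hG b c hbc gbc
    have h3 := hG c d hcd gcd'
    set a1 := (ofLex a).1 with ha1
    set b1 := (ofLex b).1 with hb1
    set c1 := (ofLex c).1 with hc1
    set d1 := (ofLex d).1 with hd1
    let s : I → Q.X := fun v => if v = a1 then (ofLex a).2 else if v = b1 then (ofLex b).2 else
      if v = c1 then (ofLex c).2 else (ofLex d).2
    have sa : s a1 = (ofLex a).2 := by simp [s]
    have sb : s b1 = (ofLex b).2 := by simp [s, h1.ne']
    have sc : s c1 = (ofLex c).2 := by simp [s, h2.ne', (h1.trans h2).ne']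
    have sd : s d1 = (ofLex d).2 := by
      simp [s, h3.ne', (h2.trans h3).ne', ((h1.trans h2).trans h3).ne']
    have key : ∀ p q, G p q → s (ofLex p).1 = (ofLex p).2 → s (ofLex q).1 = (ofLex q).2 →
        Q.S {(ofLex p).1, (ofLex q).1} s := by
      rintro p q ⟨_, s', h4, h5, h6⟩ hp hq
      refine Q.loc _ s' s ?_ h6
      intro v hv
      simp only [Finset.mem_insert, Finset.mem_singleton] at hv
      rcases hv with rfl | rfl
      · rw [h4, hp]
      · rw [h5, hq]
    have kab := key a b gab sa sb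
    have kac := key a c gac sa sc
    have kad := key a d gad sa sd
    have kbc := key b c gbc sb sc
    have kbd := key b d gbd sb sd
    have kcd := key c d gcd' sc sd
    refine hDD {a1, b1, c1, d1} s ?_ ?_ a1 (by simp) b1 (by simp) c1 (by simp) d1 (by simp)
      h1 h2 h3 hF
    · have : ({a1, b1} : Finset I) ⊆ {a1, b1, c1, d1} := by
        intro v hv
        simp only [Finset.mem_insert, Finset.mem_singleton] at hv ⊢
        tauto
      calc 2 = ({a1, b1} : Finset I).card := by rw [Finset.card_pair h1.ne]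
        _ ≤ _ := Finset.card_le_card this
    · intro u hu v hv huv
      simp only [Finset.mem_insert, Finset.mem_singleton] at hu hv
      rcases hu with rfl | rfl | rfl | rfl <;> rcases hv with rfl | rfl | rfl | rfl <;>
        first
          | exact absurd rfl huv
          | assumption
          | (rw [Finset.pair_comm]; assumption)
  · obtain ⟨b, s, hs, c, hc⟩ := hQ fun F => χ (F.map toLex.toEmbedding)
    refine ⟨lexEmb b.1 s, ?_, c, fun a ha => ?_⟩
    · intro x y z hxy hyz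
      have h1 : ∀ x y, x < y → G (lexEmb b.1 s x) (lexEmb b.1 s y) := by
        intro x y hxy
        refine ⟨(b.1.strictMono hxy).ne, s, rfl, rfl, ?_⟩
        have h2 : Q.S {b.1 x, b.1 y} s := by
          rw [hs]
          · exact Finset.card_pair (b.1.strictMono hxy).ne
          · intro v hv
            simp only [Finset.mem_insert, Finset.mem_singleton] at hv
            rcases hv with rfl | rfl <;> exact mem_img.2 ⟨_, rfl⟩
        exact h2
      have h2 : F (lexEmb b.1 s x) (lexEmb b.1 s y) (lexEmb b.1 s z) ↔ fB x y z :=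
        b.2 x y z hxy hyz
      rw [← h2]
      constructor
      · intro h
        exact (h ⟨h1 x y hxy, h1 y z hyz⟩).2
      · intro h _
        exact ⟨h1 x z (hxy.trans hyz), h⟩
    · rw [img_lexEmb]
      exact hc _ ⟨a, ha, rfl⟩

end Pool.Agent.H439_Hyper
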