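import Mathlib

/-!
# `H_4`-free 3-hypertournaments and finite-language Ramsey expansions: the definitions

All structures are structures of Mathlib's first-order languages.
-/

set_option autoImplicit false

namespace Pool.Agent.H439_Hyper

open FirstOrder Language Structure CategoryTheory

/-! ### The languages -/

/-- The relation symbols of the language `{R}`: one ternary symbol. -/
inductive Sym : ℕ → Type
  | R : Sym 3

/-- The relational language `{R}` with one ternary relation symbol. -/
def LR : FirstOrder.Language.{0, 0} := ⟨fun _ => Empty, Sym⟩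

/-- The relation symbols of the language `{R, <}`: a ternary and a binary symbol. -/
inductive SymLt : ℕ → Type
  | R : SymLt 3
  | lt : SymLt 2

/-- The relational language `{R, <}` with a ternary and a binary relation symbol. -/
def LRlt : FirstOrder.Language.{0, 0} := ⟨fun _ => Empty, SymLt⟩

/-- The inclusion of the language `{R}` in the language `{R, <}`. -/
noncomputable def incl : LR →ᴸ LRlt where
  onFunction := fun _ f => f
  onRelation := fun _ r => Sym.rec (motive := fun n _ => SymLt n) SymLt.R r

/-- The expansion of the `{R}`-structure `M` by the binary relation `lt`. -/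
@[instance_reducible]
def expandBy (M : Type) [LR.Structure M] (lt : M → M → Prop) : LRlt.Structure M where
  funMap := fun f => f.elim
  RelMap := fun r => SymLt.rec (motive := fun n _ => (Fin n → M) → Prop)
    (fun x => RelMap (L := LR) Sym.R x) (fun x => lt (x 0) (x 1)) r

/-! ### 3-hypertournaments -/

/-- `R(x, y, z)` holds in the `{R}`-structure `M`. -/
def HoldsR (M : Type) [LR.Structure M] (x y z : M) : Prop := RelMap (L := LR) Sym.R ![x, y, z]

/-- `M` is a 3-hypertournament: `R` holds only on triples of distinct elements, and on each set
`{x, y, z}` of three elements it holds exactly on the three cyclic shifts of one of the two cyclic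
orderings `(x, y, z)`, `(x, z, y)`. -/
structure IsHypertournament (M : Type) [LR.Structure M] : Prop where
  distinct : ∀ x y z : M, HoldsR M x y z → x ≠ y ∧ y ≠ z ∧ x ≠ z
  shift : ∀ x y z : M, HoldsR M x y z → HoldsR M y z x
  orientation : ∀ x y z : M, x ≠ y → y ≠ z → x ≠ z → (HoldsR M x y z ↔ ¬ HoldsR M x z y)

/-- The vertex set `{v_0, v_1, v_2, v_3}` of `H_4`. -/
def H4 : Type := Fin 4

/-- The triples `(v_0, v_1, v_3)`, `(v_1, v_2, v_3)`, `(v_2, v_0, v_3)`, `(v_0, v_2, v_1)`. -/
def H4Triples : Finset (Fin 4 × Fin 4 × Fin 4) := {(0, 1, 3), (1, 2, 3), (2, 0, 3), (0, 2, 1)}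

/-- `(x, y, z)` is a cyclic shift of one of the four triples. -/
def H4Rel (x y z : Fin 4) : Prop :=
  (x, y, z) ∈ H4Triples ∨ (y, z, x) ∈ H4Triples ∨ (z, x, y) ∈ H4Triples

/-- The 3-hypertournament `H_4`: its `R`-triples are the four triples `H4Triples` and their cyclic
shifts. -/
instance instH4 : LR.Structure H4 where
  funMap := fun f => f.elim
  RelMap := fun r => Sym.rec (motive := fun n _ => (Fin n → Fin 4) → Prop)
    (fun x => H4Rel (x 0) (x 1) (x 2)) r

/-- The class `𝒲` of all finite `H_4`-free 3-hypertournaments. -/
def W : Set (Bundled.{0} LR.Structure) :=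
  {M | Finite M ∧ IsHypertournament M ∧ IsEmpty (H4 ↪[LR] M)}

instance instCountable : Countable (Σ l, LR.Functions l) :=
  have : IsEmpty (Σ l, LR.Functions l) := ⟨fun x => Empty.elim x.2⟩
  inferInstance

/-! ### Ramsey expansions -/

/-- The Ramsey property of a class `K` of structures: for all `A, B ∈ K` and `k ≥ 1` there is
`C ∈ K` such that for every colouring of the substructures of `C` isomorphic to `A` with `k`
colours there is a substructure `B'` of `C` isomorphic to `B` all of whose substructures isomorphic
to `A` receive the same colour. -/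
def RamseyProperty {L : FirstOrder.Language.{0, 0}} (K : Set (Bundled.{0} L.Structure)) : Prop :=
  ∀ A ∈ K, ∀ B ∈ K, ∀ k : ℕ, 1 ≤ k → ∃ C ∈ K,
    ∀ χ : {A' : L.Substructure C // Nonempty (A ≃[L] A')} → Fin k,
      ∃ B' : L.Substructure C, Nonempty (B ≃[L] B') ∧
        ∀ A₁ A₂ : {A' : L.Substructure C // Nonempty (A ≃[L] A')},
          A₁.1 ≤ B' → A₂.1 ≤ B' → χ A₁ = χ A₂

/-- The `L'`-structure `E` on `M` is a finite-language Ramsey expansion of the `L`-structure on
`M`, where `φ` is the inclusion of `L` in `L'`: `L'` is a finite relational language containing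
`L`, the structure `E` is an expansion of the `L`-structure, it is ultrahomogeneous and its age
(the class of all finite structures which embed into it) has the Ramsey property. -/
structure IsFiniteLanguageRamseyExpansion {L L' : FirstOrder.Language.{0, 0}} (φ : L →ᴸ L')
    (M : Type) [L.Structure M] (E : L'.Structure M) : Prop where
  relational : L'.IsRelational
  finite : Finite (Σ n, L'.Relations n)
  injective : φ.Injective
  expansion : φ.IsExpansionOn M
  ultrahomogeneous : L'.IsUltrahomogeneous M
  ramsey : RamseyProperty (L'.age M)

end Pool.Agent.H439_Hyper
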