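import Pool.Agent.H439_Hyper.Hyper

/-!
# The generic linearly ordered `H_4`-free 3-hypertournament

One-point extensions (by the completion of `Complete.lean`) and a countable structure with the
extension property.
-/

set_option autoImplicit false

namespace Pool.Agent.H439_Hyper

/-- A ternary relation and a binary relation. -/
structure Str (V : Type) where
  r : V → V → V → Prop
  lt : V → V → Prop

/-- `H_4`-free 3-hypertournaments with a strict linear order. -/
structure Str.OH {V : Type} (s : Str V) : Prop where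
  ht : HT s.r
  h4 : H4F s.r
  irr : ∀ x, ¬ s.lt x x
  tr : ∀ x y z, s.lt x y → s.lt y z → s.lt x z
  tri : ∀ x y, x ≠ y → s.lt x y ∨ s.lt y x

/-- the induced structure -/
def Str.comap {U V : Type} (s : Str V) (e : U → V) : Str U :=
  ⟨fun x y z => s.r (e x) (e y) (e z), fun x y => s.lt (e x) (e y)⟩

theorem Str.OH.comap {U V : Type} {s : Str V} (h : s.OH) {e : U → V}
    (he : Function.Injective e) : (s.comap e).OH where
  ht :=
    { ne := fun x y z h' => by
        obtain ⟨h1, h2, h3⟩ := h.ht.ne _ _ _ h'
        exact ⟨fun h => h1 (congrArg e h), fun h => h2 (congrArg e h), fun h => h3 (congrArg e h)⟩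
      cyc := fun x y z h' => h.ht.cyc _ _ _ h'
      tot := fun x y z h1 h2 h3 =>
        h.ht.tot _ _ _ (fun h => h1 (he h)) (fun h => h2 (he h)) (fun h => h3 (he h)) }
  h4 := fun a b c d => h.h4 _ _ _ _
  irr := fun x => h.irr _
  tr := fun x y z => h.tr _ _ _
  tri := fun x y hxy => h.tri _ _ fun h' => hxy (he h')

/-- the linear order given by a strict total order -/
@[instance_reducible] noncomputable def mkLO {V : Type} (lt : V → V → Prop) (irr : ∀ x, ¬ lt x x)
    (tr : ∀ x y z, lt x y → lt y z → lt x z) (tri : ∀ x y, x ≠ y → lt x y ∨ lt y x) :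
    LinearOrder V where
  le x y := x = y ∨ lt x y
  lt := lt
  le_refl x := Or.inl rfl
  le_trans x y z := by
    rintro (rfl | h1) (rfl | h2)
    · exact Or.inl rfl
    · exact Or.inr h2
    · exact Or.inr h1
    · exact Or.inr (tr _ _ _ h1 h2)
  lt_iff_le_not_ge x y := by
    constructor
    · intro h
      refine ⟨Or.inr h, ?_⟩
      rintro (rfl | h')
      · exact irr _ h
      · exact irr _ (tr _ _ _ h h')
    · rintro ⟨rfl | h, h'⟩
      · exact absurd (Or.inl rfl) h'
      · exact h
  le_antisymm x y := by
    rintro (rfl | h1) (h | h2)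
    · rfl
    · rfl
    · exact h.symm
    · exact absurd (tr _ _ _ h1 h2) (irr _)
  le_total x y := by
    by_cases h : x = y
    · exact Or.inl (Or.inl h)
    · rcases tri x y h with h | h
      · exact Or.inl (Or.inr h)
      · exact Or.inr (Or.inr h)
  toDecidableLE := Classical.decRel _

/-- `τ` and `L` describe a one-point extension of the part `D` of `s`: the tournament of the new
point and the set of points below it. -/
structure Valid {V : Type} (s : Str V) (D : V → Prop) (τ : V → V → Prop) (L : V → Prop) :
    Prop where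
  v1 : ∀ x y, D x → D y → x ≠ y → (τ x y ↔ ¬ τ y x)
  v2 : ∀ x y z, D x → D y → D z → x ≠ y → y ≠ z → x ≠ z → τ x y → τ y z → τ z x → s.r x y z
  v3 : ∀ x y, D x → D y → s.lt x y → L y → L x

/-- One new point. -/
inductive Ext (V : Type) : Type
  | nw : Ext V
  | old : V → Ext V

theorem Ext.old_injective {V : Type} : Function.Injective (Ext.old : V → Ext V) := by
  intro x y h
  cases h
  rfl

open Ext

/-- the relation on the part where it is given -/
def rho {V : Type} (s : Str V) (τ : V → V → Prop) : Ext V → Ext V → Ext V → Prop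
  | old x, old y, old z => s.r x y z
  | nw, old x, old y => τ x y
  | old y, nw, old x => τ x y
  | old x, old y, nw => τ x y
  | _, _, _ => False

/-- the pairs where everything is given -/
def gra {V : Type} (D : V → Prop) : Ext V → Ext V → Prop
  | old _, old _ => True
  | nw, old x => D x
  | old x, nw => D x
  | nw, nw => False

/-- the new order -/
def lt' {V : Type} (s : Str V) (U : V → Prop) : Ext V → Ext V → Prop
  | old x, old y => s.lt x y
  | nw, old y => ¬ U y
  | old x, nw => U x
  | nw, nw => False

/-- One-point extensions. -/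
theorem one_point {V : Type} {s : Str V} (hs : s.OH) {D : V → Prop} {τ : V → V → Prop}
    {L : V → Prop} (hv : Valid s D τ L) :
    ∃ s' : Str (Ext V), s'.OH ∧
      (∀ x y z, s'.r (old x) (old y) (old z) ↔ s.r x y z) ∧
      (∀ x y, s'.lt (old x) (old y) ↔ s.lt x y) ∧
      (∀ x y, D x → D y → x ≠ y → (s'.r nw (old x) (old y) ↔ τ x y)) ∧
      (∀ x, D x → (s'.lt (old x) nw ↔ L x)) := by
  classical
  let U : V → Prop := fun x => ∃ y, D y ∧ L y ∧ (x = y ∨ s.lt x y)
  have hU : ∀ x y, s.lt x y → U y → U x := by
    rintro x y hxy ⟨z, h1, h2, rfl | h3⟩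
    · exact ⟨y, h1, h2, Or.inr hxy⟩
    · exact ⟨z, h1, h2, Or.inr (hs.tr _ _ _ hxy h3)⟩
  have hUD : ∀ x, D x → (U x ↔ L x) := by
    intro x hx
    constructor
    · rintro ⟨y, h1, h2, rfl | h3⟩
      · exact h2
      · exact hv.v3 x y hx h1 h3 h2
    · intro h
      exact ⟨x, hx, h, Or.inl rfl⟩
  have irr : ∀ x, ¬ lt' s U x x := by
    rintro (_ | x)
    · exact id
    · exact hs.irr x
  have tr : ∀ x y z, lt' s U x y → lt' s U y z → lt' s U x z := by
    rintro (_ | x) (_ | y) (_ | z) h1 h2
    · exact h1
    · exact h2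
    · exact h1 h2
    · exact fun h => h1 (hU _ _ h2 h)
    · exact h1
    · rcases eq_or_ne x z with h | h
      · subst h
        exact absurd h1 h2
      · rcases hs.tri x z h with h | h
        · exact h
        · exact absurd (hU _ _ h h1) h2
    · exact hU _ _ h1 h2
    · exact hs.tr _ _ _ h1 h2
  have tri : ∀ x y, x ≠ y → lt' s U x y ∨ lt' s U y x := by
    rintro (_ | x) (_ | y) h
    · exact absurd rfl h
    · exact (em (U y)).symm
    · exact em (U x)
    · exact hs.tri x y fun h' => h (congrArg old h')
  let lo : LinearOrder (Ext V) := mkLO (lt' s U) irr tr tri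
  have hlt : ∀ x y : Ext V, x < y ↔ lt' s U x y := fun x y => Iff.rfl
  let f : Ext V → Ext V → Ext V → Prop := fun p q t =>
    gra D p q ∧ gra D q t → gra D p t ∧ rho s τ p q t
  have hsome : ∀ x y : V, x ≠ y → (old x : Ext V) ≠ old y := fun x y h h' =>
    h (Ext.old_injective h')
  -- no alternating quadruples
  let loV : LinearOrder V := mkLO s.lt hs.irr hs.tr hs.tri
  have hsNA : NoAlt s.r := hs.ht.noAlt hs.h4
  have hsh : ∀ x y z, s.r x y z → s.r z x y := fun x y z h => hs.ht.cyc _ _ _ (hs.ht.cyc _ _ _ h)
  have hNA : NoAlt f := by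
    intro a b c d hab hbc hcd halt
    obtain ⟨gab, gac, gad, gbc, gbd, gcd', hF⟩ := completion_aux _ _ _ _ _ _ _ _ _ _ halt
    rcases a with _ | a <;> rcases b with _ | b <;> rcases c with _ | c <;> rcases d with _ | d <;>
      first
        | exact gab
        | exact gac
        | exact gad
        | exact gbc
        | exact gbd
        | exact gcd'
        | skip
    · -- the new point is the first one
      obtain ⟨h1, h2, h3⟩ := hF
      have nbc : b ≠ c := fun h => hs.irr _ (h ▸ (hbc : s.lt b c))
      have ncd : c ≠ d := fun h => hs.irr _ (h ▸ (hcd : s.lt c d))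
      have nbd : b ≠ d := fun h => hs.irr d (hs.tr _ _ _ (h ▸ (hbc : s.lt b c)) hcd)
      have e1 := hv.v1 b c gab gac nbc
      have e2 := hv.v1 b d gab gad nbd
      have e3 := hv.v1 c d gac gad ncd
      simp only [rho] at h1 h2 h3
      by_cases hc : τ b c
      · have h4 : ¬ τ b d := h1.1 hc
        have h5 : τ c d := by_contra fun h => h4 (h2.2 h)
        have h6 : ¬ s.r b c d := h3.1 h5
        have h7 : τ d b := by_contra fun h => h4 (e2.2 h)
        exact h6 (hv.v2 b c d gab gac gad nbc ncd nbd hc h5 h7)
      · have h4 : τ b d := by_contra fun h => hc (h1.2 h)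
        have h5 : ¬ τ c d := h2.1 h4
        have h6 : s.r b c d := by_contra fun h => h5 (h3.2 h)
        have h7 : τ d c := by_contra fun h => h5 (e3.2 h)
        have h8 : τ c b := by_contra fun h => hc (e1.2 h)
        have h9 := hv.v2 b d c gab gad gac nbd ncd.symm nbc h4 h7 h8
        exact (hs.ht.tot b c d nbc ncd nbd).1 h6 h9
    · -- the second one
      obtain ⟨h1, h2, h3⟩ := hF
      have hac : s.lt a c := tr (old a) nw (old c) hab hbc
      have nac : a ≠ c := fun h => hs.irr _ (h ▸ hac)
      have ncd : c ≠ d := fun h => hs.irr _ (h ▸ (hcd : s.lt c d))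
      have nad : a ≠ d := fun h => hs.irr d (hs.tr _ _ _ (h ▸ hac) hcd)
      have e1 := hv.v1 c a gbc gab nac.symm
      have e2 := hv.v1 d a gbd gab nad.symm
      have e3 := hv.v1 c d gbc gbd ncd
      simp only [rho] at h1 h2 h3
      by_cases hc : τ c a
      · have h4 : ¬ τ d a := h1.1 hc
        have h5 : s.r a c d := by_contra fun h => h4 (h2.2 h)
        have h6 : ¬ τ c d := h3.1 h5
        have h7 : τ d c := by_contra fun h => h6 (e3.2 h)
        have h8 : τ a d := by_contra fun h => h4 (e2.2 h)
        have h9 := hv.v2 a d c gab gbd gbc nad ncd.symm nac h8 h7 hc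
        exact (hs.ht.tot a c d nac ncd nad).1 h5 h9
      · have h4 : τ d a := by_contra fun h => hc (h1.2 h)
        have h5 : ¬ s.r a c d := h2.1 h4
        have h6 : τ c d := by_contra fun h => h5 (h3.2 h)
        have h7 : τ a c := by_contra fun h => hc (e1.2 h)
        exact h5 (hv.v2 a c d gab gbc gbd nac ncd nad h7 h6 h4)
    · -- the third one
      obtain ⟨h1, h2, h3⟩ := hF
      have hbd : s.lt b d := tr (old b) nw (old d) hbc hcd
      have nbd : b ≠ d := fun h => hs.irr _ (h ▸ hbd)
      have nab : a ≠ b := fun h => hs.irr _ (h ▸ (hab : s.lt a b))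
      have nad : a ≠ d := fun h => hs.irr d (hs.tr _ _ _ (h ▸ (hab : s.lt a b)) hbd)
      have e1 := hv.v1 a b gac gbc nab
      have e2 := hv.v1 d a gcd' gac nad.symm
      have e3 := hv.v1 d b gcd' gbc nbd.symm
      simp only [rho] at h1 h2 h3
      by_cases hc : τ a b
      · have h4 : ¬ s.r a b d := h1.1 hc
        have h5 : τ d a := by_contra fun h => h4 (h2.2 h)
        have h6 : ¬ τ d b := h3.1 h5
        have h7 : τ b d := by_contra fun h => h6 (e3.2 h)
        exact h4 (hv.v2 a b d gac gbc gcd' nab nbd nad hc h7 h5)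
      · have h4 : s.r a b d := by_contra fun h => hc (h1.2 h)
        have h5 : ¬ τ d a := h2.1 h4
        have h6 : τ d b := by_contra fun h => h5 (h3.2 h)
        have h7 : τ b a := by_contra fun h => hc (e1.2 h)
        have h8 : τ a d := by_contra fun h => h5 (e2.2 h)
        have h9 := hv.v2 a d b gac gcd' gbc nad nbd.symm nab h8 h6 h7
        exact (hs.ht.tot a b d nab nbd nad).1 h4 h9
    · -- the last one
      obtain ⟨h1, h2, h3⟩ := hF
      have nab : a ≠ b := fun h => hs.irr _ (h ▸ (hab : s.lt a b))
      have nbc : b ≠ c := fun h => hs.irr _ (h ▸ (hbc : s.lt b c))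
      have nac : a ≠ c := fun h => hs.irr c (hs.tr _ _ _ (h ▸ (hab : s.lt a b)) hbc)
      have e1 := hv.v1 a b gad gbd nab
      have e2 := hv.v1 a c gad gcd' nac
      have e3 := hv.v1 b c gbd gcd' nbc
      simp only [rho] at h1 h2 h3
      by_cases hc : s.r a b c
      · have h4 : ¬ τ a b := h1.1 hc
        have h5 : τ a c := by_contra fun h => h4 (h2.2 h)
        have h6 : ¬ τ b c := h3.1 h5
        have h7 : τ b a := by_contra fun h => h4 (e1.2 h)
        have h8 : τ c b := by_contra fun h => h6 (e3.2 h)
        have h9 := hv.v2 a c b gad gcd' gbd nac nbc.symm nab h5 h8 h7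
        exact (hs.ht.tot a b c nab nbc nac).1 hc h9
      · have h4 : τ a b := by_contra fun h => hc (h1.2 h)
        have h5 : ¬ τ a c := h2.1 h4
        have h6 : τ b c := by_contra fun h => h5 (h3.2 h)
        have h7 : τ c a := by_contra fun h => h5 (e2.2 h)
        exact hc (hv.v2 a b c gad gbd gcd' nab nbc nac h4 h6 h7)
    · exact hsNA a b c d hab hbc hcd hF
  have hr := rOf_HT f
  refine ⟨⟨rOf f, lt' s U⟩, ⟨hr, rOf_H4F hNA, irr, tr, tri⟩, ?_, fun x y => Iff.rfl, ?_, hUD⟩
  · -- the old part
    have hc : HT fun x y z : V => rOf f (old x) (old y) (old z) :=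
      { ne := fun x y z h' => by
          obtain ⟨h1, h2, h3⟩ := hr.ne _ _ _ h'
          exact ⟨fun h => h1 (congrArg old h), fun h => h2 (congrArg old h),
            fun h => h3 (congrArg old h)⟩
        cyc := fun x y z h' => hr.cyc _ _ _ h'
        tot := fun x y z h1 h2 h3 => hr.tot _ _ _ (hsome _ _ h1) (hsome _ _ h2) (hsome _ _ h3) }
    refine hc.ext_of_increasing hs.ht fun x y z hxy hyz => ?_
    have h1 : (old x : Ext V) < old y := hxy
    have h2 : (old y : Ext V) < old z := hyz
    rw [rOf_1 h1 h2]
    simp [f, gra, rho]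
  · -- the new point
    intro x y hx hy hxy
    show rOf f nw (old x) (old y) ↔ τ x y
    have e1 := hv.v1 x y hx hy hxy
    rcases hs.tri x y hxy with h | h
    · have h0 : (old x : Ext V) < old y := h
      by_cases hxn : lt' s U (old x) nw
      · by_cases hyn : lt' s U (old y) nw
        · have h1 : (old y : Ext V) < nw := hyn
          rw [rOf_3 h0 h1]
          simp [f, gra, rho, hx, hy]
        · have h1 : (nw : Ext V) < old y := hyn
          have h2 : (old x : Ext V) < nw := hxn
          rw [rOf_6 h2 h1]
          simp [f, gra, rho, hx, hy, e1]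
      · have h1 : (nw : Ext V) < old x := hxn
        rw [rOf_1 h1 h0]
        simp [f, gra, rho, hx, hy]
    · have h0 : (old y : Ext V) < old x := h
      by_cases hyn : lt' s U (old y) nw
      · by_cases hxn : lt' s U (old x) nw
        · have h1 : (old x : Ext V) < nw := hxn
          rw [rOf_5 h0 h1]
          simp [f, gra, rho, hx, hy, e1]
        · have h1 : (nw : Ext V) < old x := hxn
          have h2 : (old y : Ext V) < nw := hyn
          rw [rOf_2 h2 h1]
          simp [f, gra, rho, hx, hy]
      · have h1 : (nw : Ext V) < old y := hyn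
        rw [rOf_4 h1 h0]
        simp [f, gra, rho, hx, hy, e1]

end Pool.Agent.H439_Hyper
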