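import Pool.Agent.H439_Hyper.Complete

/-!
# 3-hypertournaments, `H_4`-freeness and the coding by increasing triples
-/

set_option autoImplicit false

namespace Pool.Agent.H439_Hyper

/-- The axioms of 3-hypertournaments. -/
structure HT {V : Type} (r : V → V → V → Prop) : Prop where
  ne : ∀ x y z, r x y z → x ≠ y ∧ y ≠ z ∧ x ≠ z
  cyc : ∀ x y z, r x y z → r y z x
  tot : ∀ x y z, x ≠ y → y ≠ z → x ≠ z → (r x y z ↔ ¬ r x z y)

/-- `H_4` does not occur. -/
def H4F {V : Type} (r : V → V → V → Prop) : Prop :=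
  ∀ a b c d, r a b d → r b c d → r c a d → ¬ r a c b

theorem HT.cyc' {V : Type} {r : V → V → V → Prop} (h : HT r) (x y z : V) :
    r x y z ↔ r y z x :=
  ⟨h.cyc x y z, fun h' => h.cyc _ _ _ (h.cyc _ _ _ h')⟩

/-- the relation of an `H_4`-free 3-hypertournament has no alternating quadruples -/
theorem HT.noAlt {V : Type} [LinearOrder V] {r : V → V → V → Prop} (h : HT r) (h4 : H4F r) :
    NoAlt r := by
  intro a b c d hab hbc hcd halt
  have nab := hab.ne
  have nbc := hbc.ne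
  have ncd := hcd.ne
  have nac := (hab.trans hbc).ne
  have nbd := (hbc.trans hcd).ne
  have nad := ((hab.trans hbc).trans hcd).ne
  obtain ⟨h1, h2, h3⟩ := halt
  have e1 := h.tot a b c nab nbc nac
  have e2 := h.tot a b d nab nbd nad
  have e3 := h.tot a c d nac ncd nad
  have e4 := h.tot b c d nbc ncd nbd
  have sh : ∀ x y z, r x y z → r z x y := fun x y z h' => h.cyc _ _ _ (h.cyc _ _ _ h')
  by_cases h5 : r a b c
  · have h6 : ¬ r a b d := h1.1 h5
    have h7 : r a c d := by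
      by_contra h7
      exact h6 (h2.2 h7)
    have h8 : ¬ r b c d := h3.1 h7
    have h9 : r a d b := by
      by_contra h9
      exact h6 (e2.2 h9)
    have h10 : r b d c := by
      by_contra h10
      exact h8 (e4.2 h10)
    exact h4 b a c d (sh _ _ _ h9) h7 (sh _ _ _ h10) (h.cyc _ _ _ h5)
  · have h6 : r a b d := by
      by_contra h6
      exact h5 (h1.2 h6)
    have h7 : ¬ r a c d := h2.1 h6
    have h8 : r b c d := by
      by_contra h8
      exact h7 (h3.2 h8)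
    have h9 : r a d c := by
      by_contra h9
      exact h7 (e3.2 h9)
    have h10 : r a c b := by
      by_contra h10
      exact h5 (e1.2 h10)
    exact h4 a b c d h6 h8 (sh _ _ _ h9) h10

section rOf

variable {V : Type} [LinearOrder V]

/-- The relation coded by the values of `f` on the increasing triples. -/
def rOf (f : V → V → V → Prop) (x y z : V) : Prop :=
  (x < y ∧ y < z ∧ f x y z) ∨ (y < z ∧ z < x ∧ f y z x) ∨ (z < x ∧ x < y ∧ f z x y) ∨
  (x < z ∧ z < y ∧ ¬ f x z y) ∨ (z < y ∧ y < x ∧ ¬ f z y x) ∨ (y < x ∧ x < z ∧ ¬ f y x z)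

variable {f : V → V → V → Prop} {x y z : V}

theorem rOf_1 (h1 : x < y) (h2 : y < z) : rOf f x y z ↔ f x y z := by
  have h3 := h1.trans h2
  simp [rOf, h1, h2, h1.not_gt, h2.not_gt, h3.not_gt]

theorem rOf_2 (h1 : x < y) (h2 : y < z) : rOf f y z x ↔ f x y z := by
  have h3 := h1.trans h2
  simp [rOf, h1, h2, h1.not_gt, h2.not_gt, h3.not_gt]

theorem rOf_3 (h1 : x < y) (h2 : y < z) : rOf f z x y ↔ f x y z := by
  have h3 := h1.trans h2
  simp [rOf, h1, h2, h1.not_gt, h2.not_gt, h3.not_gt]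

theorem rOf_4 (h1 : x < y) (h2 : y < z) : rOf f x z y ↔ ¬ f x y z := by
  have h3 := h1.trans h2
  simp [rOf, h1, h2, h1.not_gt, h2.not_gt, h3.not_gt]

theorem rOf_5 (h1 : x < y) (h2 : y < z) : rOf f z y x ↔ ¬ f x y z := by
  have h3 := h1.trans h2
  simp [rOf, h1, h2, h1.not_gt, h2.not_gt, h3.not_gt]

theorem rOf_6 (h1 : x < y) (h2 : y < z) : rOf f y x z ↔ ¬ f x y z := by
  have h3 := h1.trans h2
  simp [rOf, h1, h2, h1.not_gt, h2.not_gt, h3.not_gt]

theorem rOf_HT (f : V → V → V → Prop) : HT (rOf f) where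
  ne := by
    rintro x y z (⟨h1, h2, _⟩ | ⟨h1, h2, _⟩ | ⟨h1, h2, _⟩ | ⟨h1, h2, _⟩ | ⟨h1, h2, _⟩ | ⟨h1, h2, _⟩)
    · exact ⟨h1.ne, h2.ne, (h1.trans h2).ne⟩
    · exact ⟨(h1.trans h2).ne', h1.ne, h2.ne'⟩
    · exact ⟨h2.ne, (h1.trans h2).ne', h1.ne'⟩
    · exact ⟨(h1.trans h2).ne, h2.ne', h1.ne⟩
    · exact ⟨h2.ne', h1.ne', (h1.trans h2).ne'⟩
    · exact ⟨h1.ne', (h1.trans h2).ne, h2.ne⟩
  cyc := by
    rintro x y z (⟨h1, h2, h⟩ | ⟨h1, h2, h⟩ | ⟨h1, h2, h⟩ | ⟨h1, h2, h⟩ | ⟨h1, h2, h⟩ |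
      ⟨h1, h2, h⟩)
    · exact (rOf_2 h1 h2).2 h
    · exact (rOf_1 h1 h2).2 h
    · exact (rOf_3 h1 h2).2 h
    · exact (rOf_5 h1 h2).2 h
    · exact (rOf_6 h1 h2).2 h
    · exact (rOf_4 h1 h2).2 h
  tot := by
    intro x y z h1 h2 h3
    rcases lt_or_gt_of_ne h1 with h1 | h1 <;> rcases lt_or_gt_of_ne h2 with h2 | h2 <;>
      rcases lt_or_gt_of_ne h3 with h3 | h3
    · rw [rOf_1 h1 h2, rOf_4 h1 h2, not_not]
    · exact absurd h3 (h1.trans h2).not_gt
    · rw [rOf_4 h3 h2, rOf_1 h3 h2]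
    · rw [rOf_2 h3 h1, rOf_6 h3 h1, not_not]
    · rw [rOf_6 h1 h3, rOf_2 h1 h3]
    · rw [rOf_3 h2 h3, rOf_5 h2 h3, not_not]
    · exact absurd h3 (h2.trans h1).not_gt
    · rw [rOf_5 h2 h1, rOf_3 h2 h1]

/-- two 3-hypertournament relations which agree on increasing triples are equal -/
theorem HT.ext_of_increasing {r s : V → V → V → Prop} (hr : HT r) (hs : HT s)
    (h : ∀ x y z, x < y → y < z → (r x y z ↔ s x y z)) (x y z : V) : r x y z ↔ s x y z := by
  by_cases hd : x ≠ y ∧ y ≠ z ∧ x ≠ z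
  · obtain ⟨h1, h2, h3⟩ := hd
    have key : ∀ x y z, x < y → y < z → (r x z y ↔ s x z y) := by
      intro x y z h1 h2
      have e1 := hr.tot x y z h1.ne h2.ne (h1.trans h2).ne
      have e2 := hs.tot x y z h1.ne h2.ne (h1.trans h2).ne
      have e3 := h x y z h1 h2
      rw [← not_iff_not, ← e1, ← e2, e3]
    rcases lt_or_gt_of_ne h1 with h1 | h1 <;> rcases lt_or_gt_of_ne h2 with h2 | h2 <;>
      rcases lt_or_gt_of_ne h3 with h3 | h3
    · exact h x y z h1 h2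
    · exact absurd h3 (h1.trans h2).not_gt
    · exact key x z y h3 h2
    · rw [← hr.cyc' z x y, ← hs.cyc' z x y]; exact h z x y h3 h1
    · rw [hr.cyc', hs.cyc']; exact key y x z h1 h3
    · rw [hr.cyc', hs.cyc', hr.cyc', hs.cyc', ← hr.cyc' y z x, ← hs.cyc' y z x]
      exact h y z x h2 h3
    · exact absurd h3 (h2.trans h1).not_gt
    · rw [← hr.cyc' z x y, ← hs.cyc' z x y]; exact key z y x h2 h1
  · constructor
    · intro h'
      exact absurd (hr.ne x y z h') hd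
    · intro h'
      exact absurd (hs.ne x y z h') hd

/-- the pattern of `H_4` -/
def Pat (r : V → V → V → Prop) (a b c d : V) : Prop := r a b d ∧ r b c d ∧ r c a d ∧ r a c b

omit [LinearOrder V] in
theorem Pat.rot {r : V → V → V → Prop} (h : HT r) {a b c d : V} (p : Pat r a b c d) :
    Pat r b c a d :=
  ⟨p.2.1, p.2.2.1, p.1, h.cyc _ _ _ (h.cyc _ _ _ p.2.2.2)⟩

omit [LinearOrder V] in
theorem Pat.swap {r : V → V → V → Prop} (h : HT r) {a b c d : V} (p : Pat r a b c d) :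
    Pat r b a d c :=
  ⟨h.cyc _ _ _ (h.cyc _ _ _ p.2.2.2), h.cyc _ _ _ p.2.2.1, h.cyc _ _ _ (h.cyc _ _ _ p.2.1),
    h.cyc _ _ _ p.1⟩

theorem no_pat_aux (hf : NoAlt f) {a b c d : V} (p : Pat (rOf f) a b c d) (hac : a < c)
    (hbc : b < c) (hcd : c < d) : False := by
  obtain ⟨p1, p2, p3, p4⟩ := p
  have hab : a ≠ b := ((rOf_HT f).ne _ _ _ p1).1
  rcases lt_or_gt_of_ne hab with hab | hab
  · rw [rOf_1 hab (hbc.trans hcd)] at p1
    rw [rOf_1 hbc hcd] at p2
    rw [rOf_6 hac hcd] at p3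
    rw [rOf_4 hab hbc] at p4
    exact hf a b c d hab hbc hcd ⟨by tauto, by tauto, by tauto⟩
  · rw [rOf_6 hab (hac.trans hcd)] at p1
    rw [rOf_1 hbc hcd] at p2
    rw [rOf_6 hac hcd] at p3
    rw [rOf_2 hab hac] at p4
    exact hf b a c d hab hac hcd ⟨by tauto, by tauto, by tauto⟩

theorem no_pat (hf : NoAlt f) {a b c d : V} (p : Pat (rOf f) a b c d) (had : a < d)
    (hbd : b < d) (hcd : c < d) : False := by
  have hr := rOf_HT f
  have hab : a ≠ b := (hr.ne _ _ _ p.1).1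
  have hbc : b ≠ c := (hr.ne _ _ _ p.2.1).1
  have hca : c ≠ a := (hr.ne _ _ _ p.2.2.1).1
  rcases lt_or_gt_of_ne hab with hab | hab <;> rcases lt_or_gt_of_ne hbc with hbc | hbc <;>
    rcases lt_or_gt_of_ne hca with hca | hca
  · exact absurd hca (hab.trans hbc).not_gt
  · exact no_pat_aux hf p hca hbc hcd
  · exact no_pat_aux hf ((p.rot hr).rot hr) hbc hab hbd
  · exact no_pat_aux hf ((p.rot hr).rot hr) hbc hab hbd
  · exact no_pat_aux hf (p.rot hr) hab hca had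
  · exact no_pat_aux hf p hca hbc hcd
  · exact no_pat_aux hf (p.rot hr) hab hca had
  · exact absurd hca (hbc.trans hab).not_gt

theorem rOf_H4F (hf : NoAlt f) : H4F (rOf f) := by
  intro a b c d h1 h2 h3 h4
  have hr := rOf_HT f
  have p : Pat (rOf f) a b c d := ⟨h1, h2, h3, h4⟩
  have nad := (hr.ne _ _ _ h1).2.2
  have nbd := (hr.ne _ _ _ h2).2.2
  have ncd := (hr.ne _ _ _ h3).2.2
  have nab := (hr.ne _ _ _ h1).1
  have nbc := (hr.ne _ _ _ h2).1
  have nca := (hr.ne _ _ _ h3).1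
  by_cases hd : a < d ∧ b < d ∧ c < d
  · exact no_pat hf p hd.1 hd.2.1 hd.2.2
  by_cases hc : a < c ∧ b < c ∧ d < c
  · exact no_pat hf (p.swap hr) hc.2.1 hc.1 hc.2.2
  by_cases hb : a < b ∧ c < b ∧ d < b
  · exact no_pat hf ((p.rot hr).rot hr |>.swap hr) hb.1 hb.2.1 hb.2.2
  by_cases ha : b < a ∧ c < a ∧ d < a
  · exact no_pat hf ((p.rot hr).swap hr) ha.2.1 ha.1 ha.2.2
  rcases lt_or_gt_of_ne nad with h1 | h1 <;> rcases lt_or_gt_of_ne nbd with h2 | h2 <;>
    rcases lt_or_gt_of_ne ncd with h3 | h3 <;> rcases lt_or_gt_of_ne nab with h4 | h4 <;>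
    rcases lt_or_gt_of_ne nbc with h5 | h5 <;> rcases lt_or_gt_of_ne nca with h6 | h6 <;>
    first
      | exact hd ⟨h1, h2, h3⟩
      | exact hc ⟨h6, h5, h3⟩
      | exact hb ⟨h4, h5, h2⟩
      | exact ha ⟨h4, h6, h1⟩
      | exact absurd (h1.trans h2) (lt_asymm h4)
      | order

end rOf

end Pool.Agent.H439_Hyper
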