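import Pool.Agent.H439_Hyper.Generic

/-!
# A countable structure with the extension property
-/

set_option autoImplicit false

namespace Pool.Agent.H439_Hyper

open Ext

/-- `v` realises the one-point extension `(τ, L)` of `D`. -/
def Real {V : Type} (s : Str V) (D : Finset V) (τ : V → V → Prop) (L : V → Prop) (v : V) : Prop :=
  v ∉ D ∧ (∀ x ∈ D, ∀ y ∈ D, x ≠ y → (s.r v x y ↔ τ x y)) ∧ ∀ x ∈ D, (s.lt x v ↔ L x)

/-- The extension property. -/
def EP {V : Type} (s : Str V) : Prop :=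
  ∀ (D : Finset V) (τ : V → V → Prop) (L : V → Prop), Valid s (· ∈ D) τ L → ∃ v, Real s D τ L v

/-- the two structures agree on `F` -/
def Agree {V : Type} (F : Finset V) (s s' : Str V) : Prop :=
  (∀ x ∈ F, ∀ y ∈ F, ∀ z ∈ F, (s.r x y z ↔ s'.r x y z)) ∧
    ∀ x ∈ F, ∀ y ∈ F, (s.lt x y ↔ s'.lt x y)

theorem Agree.refl {V : Type} (F : Finset V) (s : Str V) : Agree F s s :=
  ⟨fun _ _ _ _ _ _ => Iff.rfl, fun _ _ _ _ => Iff.rfl⟩

theorem Agree.symm {V : Type} {F : Finset V} {s s' : Str V} (h : Agree F s s') : Agree F s' s :=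
  ⟨fun x hx y hy z hz => (h.1 x hx y hy z hz).symm, fun x hx y hy => (h.2 x hx y hy).symm⟩

theorem Agree.trans {V : Type} {F F' : Finset V} {s s' s'' : Str V} (h : Agree F s s')
    (hF : F ⊆ F') (h' : Agree F' s' s'') : Agree F s s'' :=
  ⟨fun x hx y hy z hz => (h.1 x hx y hy z hz).trans (h'.1 x (hF hx) y (hF hy) z (hF hz)),
    fun x hx y hy => (h.2 x hx y hy).trans (h'.2 x (hF hx) y (hF hy))⟩

theorem Agree.valid {V : Type} {F : Finset V} {s s' : Str V} (h : Agree F s s') {D : Finset V}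
    (hD : D ⊆ F) {τ : V → V → Prop} {L : V → Prop} (hv : Valid s (· ∈ D) τ L) :
    Valid s' (· ∈ D) τ L where
  v1 := hv.v1
  v2 x y z hx hy hz h1 h2 h3 h4 h5 h6 :=
    (h.1 x (hD hx) y (hD hy) z (hD hz)).1 (hv.v2 x y z hx hy hz h1 h2 h3 h4 h5 h6)
  v3 x y hx hy h1 h2 := hv.v3 x y hx hy ((h.2 x (hD hx) y (hD hy)).2 h1) h2

theorem Agree.real {V : Type} {F : Finset V} {s s' : Str V} (h : Agree F s s') {D : Finset V}
    (hD : D ⊆ F) {τ : V → V → Prop} {L : V → Prop} {v : V} (hvF : v ∈ F)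
    (hv : Real s D τ L v) : Real s' D τ L v :=
  ⟨hv.1, fun x hx y hy hxy => (h.1 v hvF x (hD hx) y (hD hy)).symm.trans (hv.2.1 x hx y hy hxy),
    fun x hx => (h.2 x (hD hx) v hvF).symm.trans (hv.2.2 x hx)⟩

/-- insertion of the new point at the place `m` -/
def insEquiv (m : ℕ) : ℕ ≃ Ext ℕ where
  toFun x := if x < m then old x else if x = m then nw else old (x - 1)
  invFun
    | nw => m
    | old x => if x < m then x else x + 1
  left_inv x := by
    by_cases h1 : x < m
    · simp [h1]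
    · by_cases h2 : x = m
      · simp [h2]
      · have h3 : ¬ (x - 1 < m) := by omega
        simp only [h1, h2, if_false, h3]
        omega
  right_inv x := by
    rcases x with _ | x
    · simp
    · by_cases h1 : x < m
      · simp [h1]
      · have h3 : ¬ (x + 1 < m) := by omega
        have h4 : ¬ (x + 1 = m) := by omega
        simp [h1, h3, h4]

theorem insEquiv_lt {m x : ℕ} (h : x < m) : insEquiv m x = old x := by
  simp [insEquiv, h]

theorem insEquiv_self (m : ℕ) : insEquiv m m = nw := by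
  simp [insEquiv]

/-- conditions: a structure and a window -/
structure Cond where
  F : Finset ℕ
  s : Str ℕ
  oh : s.OH

/-- tasks: one-point extensions over finite sets -/
abbrev Task : Type := Finset ℕ × Finset (ℕ × ℕ) × Finset ℕ

theorem cond_step (c : Cond) (n : ℕ) (t : Task) : ∃ c' : Cond, n ∈ c'.F ∧ c.F ⊆ c'.F ∧
    Agree c.F c.s c'.s ∧ t.1 ⊆ c'.F ∧
    (Valid c'.s (· ∈ t.1) (fun x y => (x, y) ∈ t.2.1) (· ∈ t.2.2) →
      ∃ v ∈ c'.F, Real c'.s t.1 (fun x y => (x, y) ∈ t.2.1) (· ∈ t.2.2) v) := by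
  classical
  by_cases hv : Valid c.s (· ∈ t.1) (fun x y => (x, y) ∈ t.2.1) (· ∈ t.2.2)
  · obtain ⟨s'', h1, h2, h3, h4, h5⟩ := one_point c.oh hv
    let m : ℕ := (c.F ∪ t.1 ∪ {n}).sup id + 1
    have hm : ∀ x ∈ c.F ∪ t.1 ∪ {n}, x < m := fun x hx =>
      Nat.lt_succ_of_le (Finset.le_sup (f := id) hx)
    have he : ∀ x ∈ c.F ∪ t.1 ∪ {n}, insEquiv m x = old x := fun x hx => insEquiv_lt (hm x hx)
    have hF : c.F ⊆ c.F ∪ t.1 ∪ {n} := fun x hx => by simp [hx]
    have ht : t.1 ⊆ c.F ∪ t.1 ∪ {n} := fun x hx => by simp [hx]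
    refine ⟨⟨insert m (c.F ∪ t.1 ∪ {n}), s''.comap (insEquiv m),
      h1.comap (insEquiv m).injective⟩, ?_, ?_, ?_, ?_, ?_⟩
    · simp
    · exact hF.trans (Finset.subset_insert _ _)
    · constructor
      · intro x hx y hy z hz
        show _ ↔ s''.r (insEquiv m x) (insEquiv m y) (insEquiv m z)
        rw [he x (hF hx), he y (hF hy), he z (hF hz), h2]
      · intro x hx y hy
        show _ ↔ s''.lt (insEquiv m x) (insEquiv m y)
        rw [he x (hF hx), he y (hF hy), h3]
    · exact ht.trans (Finset.subset_insert _ _)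
    · intro _
      refine ⟨m, Finset.mem_insert_self _ _, ?_, ?_, ?_⟩
      · intro h
        exact lt_irrefl _ (hm m (ht h))
      · intro x hx y hy hxy
        show s''.r (insEquiv m m) (insEquiv m x) (insEquiv m y) ↔ _
        rw [insEquiv_self, he x (ht hx), he y (ht hy)]
        exact h4 x y hx hy hxy
      · intro x hx
        show s''.lt (insEquiv m x) (insEquiv m m) ↔ _
        rw [insEquiv_self, he x (ht hx)]
        exact h5 x hx
  · refine ⟨⟨c.F ∪ t.1 ∪ {n}, c.s, c.oh⟩, by simp, fun x hx => by simp [hx], Agree.refl _ _,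
      fun x hx => by simp [hx], fun h => absurd h hv⟩

theorem exists_OH_nat : ∃ s : Str ℕ, s.OH :=
  ⟨⟨rOf fun _ _ _ => True, fun x y => x < y⟩, rOf_HT _, rOf_H4F fun a b c d _ _ _ h => by
    simp [Alt4] at h, fun x => lt_irrefl x, fun x y z => lt_trans, fun x y => lt_or_gt_of_ne⟩

/-- The generic linearly ordered `H_4`-free 3-hypertournament exists. -/
theorem exists_generic : ∃ s : Str ℕ, s.OH ∧ EP s := by
  classical
  obtain ⟨s0, hs0⟩ := exists_OH_nat
  obtain ⟨f, hf⟩ := exists_surjective_nat Task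
  choose nxt h1 h2 h3 h4 h5 using cond_step
  obtain ⟨seq, hseq⟩ : ∃ seq : ℕ → Cond, ∀ n, seq (n + 1) = nxt (seq n) n (f n) :=
    ⟨fun n => Nat.rec ⟨∅, s0, hs0⟩ (fun n c => nxt c n (f n)) n, fun n => rfl⟩
  have hmono : ∀ n k, (seq n).F ⊆ (seq (n + k)).F ∧ Agree (seq n).F (seq n).s (seq (n + k)).s := by
    intro n k
    induction k with
    | zero => exact ⟨fun x hx => hx, Agree.refl _ _⟩
    | succ k ih =>
      rw [← add_assoc, hseq]
      exact ⟨ih.1.trans (h2 _ _ _), ih.2.trans ih.1 (h3 _ _ _)⟩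
  have hmono' : ∀ n m, n ≤ m → (seq n).F ⊆ (seq m).F ∧ Agree (seq n).F (seq n).s (seq m).s := by
    intro n m hnm
    obtain ⟨k, rfl⟩ := Nat.exists_eq_add_of_le hnm
    exact hmono n k
  have hmem : ∀ x n, x < n → x ∈ (seq n).F := by
    intro x n hx
    exact (hmono' (x + 1) n hx).1 (by rw [hseq]; exact h1 _ _ _)
  let s : Str ℕ := ⟨fun x y z => (seq (x + y + z + 1)).s.r x y z,
    fun x y => (seq (x + y + 1)).s.lt x y⟩
  have hr : ∀ n x y z, x ∈ (seq n).F → y ∈ (seq n).F → z ∈ (seq n).F →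
      (s.r x y z ↔ (seq n).s.r x y z) := by
    intro n x y z hx hy hz
    rcases le_total n (x + y + z + 1) with h | h
    · exact ((hmono' _ _ h).2.1 x hx y hy z hz).symm
    · exact (hmono' _ _ h).2.1 x (hmem x (x + y + z + 1) (by omega)) y
        (hmem y (x + y + z + 1) (by omega)) z (hmem z (x + y + z + 1) (by omega))
  have hl : ∀ n x y, x ∈ (seq n).F → y ∈ (seq n).F → (s.lt x y ↔ (seq n).s.lt x y) := by
    intro n x y hx hy
    rcases le_total n (x + y + 1) with h | h
    · exact ((hmono' _ _ h).2.2 x hx y hy).symm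
    · exact (hmono' _ _ h).2.2 x (hmem x (x + y + 1) (by omega)) y
        (hmem y (x + y + 1) (by omega))
  refine ⟨s, ⟨⟨?_, ?_, ?_⟩, ?_, ?_, ?_, ?_⟩, ?_⟩
  · intro x y z h
    exact (seq (x + y + z + 1)).oh.ht.ne _ _ _ h
  · intro x y z h
    have hx : x ∈ (seq (x + y + z + 1)).F := hmem x (x + y + z + 1) (by omega)
    have hy : y ∈ (seq (x + y + z + 1)).F := hmem y (x + y + z + 1) (by omega)
    have hz : z ∈ (seq (x + y + z + 1)).F := hmem z (x + y + z + 1) (by omega)
    rw [hr _ _ _ _ hy hz hx]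
    exact (seq _).oh.ht.cyc _ _ _ ((hr _ _ _ _ hx hy hz).1 h)
  · intro x y z h1' h2' h3'
    have hx : x ∈ (seq (x + y + z + 1)).F := hmem x (x + y + z + 1) (by omega)
    have hy : y ∈ (seq (x + y + z + 1)).F := hmem y (x + y + z + 1) (by omega)
    have hz : z ∈ (seq (x + y + z + 1)).F := hmem z (x + y + z + 1) (by omega)
    rw [hr _ _ _ _ hx hy hz, hr _ _ _ _ hx hz hy]
    exact (seq _).oh.ht.tot _ _ _ h1' h2' h3'
  · intro a b c d
    have ha : a ∈ (seq (a + b + c + d + 1)).F := hmem a (a + b + c + d + 1) (by omega)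
    have hb : b ∈ (seq (a + b + c + d + 1)).F := hmem b (a + b + c + d + 1) (by omega)
    have hc : c ∈ (seq (a + b + c + d + 1)).F := hmem c (a + b + c + d + 1) (by omega)
    have hd : d ∈ (seq (a + b + c + d + 1)).F := hmem d (a + b + c + d + 1) (by omega)
    rw [hr _ _ _ _ ha hb hd, hr _ _ _ _ hb hc hd, hr _ _ _ _ hc ha hd, hr _ _ _ _ ha hc hb]
    exact (seq _).oh.h4 a b c d
  · intro x h
    exact (seq (x + x + 1)).oh.irr x h
  · intro x y z
    have hx : x ∈ (seq (x + y + z + 1)).F := hmem x (x + y + z + 1) (by omega)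
    have hy : y ∈ (seq (x + y + z + 1)).F := hmem y (x + y + z + 1) (by omega)
    have hz : z ∈ (seq (x + y + z + 1)).F := hmem z (x + y + z + 1) (by omega)
    rw [hl _ _ _ hx hy, hl _ _ _ hy hz, hl _ _ _ hx hz]
    exact (seq _).oh.tr x y z
  · intro x y hxy
    have hx : x ∈ (seq (x + y + 1)).F := hmem x (x + y + 1) (by omega)
    have hy : y ∈ (seq (x + y + 1)).F := hmem y (x + y + 1) (by omega)
    rw [hl _ _ _ hx hy, hl _ _ _ hy hx]
    exact (seq _).oh.tri x y hxy
  · intro D τ L hv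
    let t : Task := (D, (D ×ˢ D).filter (fun p => τ p.1 p.2), D.filter fun x => L x)
    obtain ⟨n, hn⟩ := hf t
    have hag : Agree (seq (n + 1)).F (seq (n + 1)).s s :=
      ⟨fun x hx y hy z hz => (hr (n + 1) x y z hx hy hz).symm,
        fun x hx y hy => (hl (n + 1) x y hx hy).symm⟩
    have hD : D ⊆ (seq (n + 1)).F := by
      rw [hseq]
      have := h4 (seq n) n (f n)
      rw [hn] at this
      rw [hn]
      exact this
    have hvt : Valid s (· ∈ D) (fun x y => (x, y) ∈ t.2.1) (· ∈ t.2.2) := by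
      refine ⟨?_, ?_, ?_⟩
      · intro x y hx hy hxy
        have := hv.v1 x y hx hy hxy
        have hx' : x ∈ D := hx
        have hy' : y ∈ D := hy
        simpa [t, hx', hy'] using this
      · intro x y z hx hy hz h1' h2' h3' h4' h5' h6'
        refine hv.v2 x y z hx hy hz h1' h2' h3' ?_ ?_ ?_
        · exact (Finset.mem_filter.1 h4').2
        · exact (Finset.mem_filter.1 h5').2
        · exact (Finset.mem_filter.1 h6').2
      · intro x y hx hy h1' h2'
        exact Finset.mem_filter.2 ⟨hx, hv.v3 x y hx hy h1' (Finset.mem_filter.1 h2').2⟩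
    have hex := h5 (seq n) n (f n)
    rw [← hseq, hn] at hex
    obtain ⟨v, hvF, hvR⟩ := hex (hag.symm.valid hD hvt)
    have hvR' := hag.real hD hvF hvR
    refine ⟨v, hvR'.1, fun x hx y hy hxy => ?_, fun x hx => ?_⟩
    · rw [hvR'.2.1 x hx y hy hxy]
      simp [t, hx, hy]
    · rw [hvR'.2.2 x hx]
      simp [t, hx]

end Pool.Agent.H439_Hyper
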