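import Pool.Agent.H439_Hyper.Limit

/-!
# Extension of partial embeddings into a structure with the extension property
-/

set_option autoImplicit false

namespace Pool.Agent.H439_Hyper

open Function

/-- `H_4`-free 3-hypertournaments, with a strict linear order if `P` holds. -/
structure UOK {U : Type} (P : Prop) (s : Str U) : Prop where
  ht : HT s.r
  h4 : H4F s.r
  irr : P → ∀ x, ¬ s.lt x x
  tr : P → ∀ x y z, s.lt x y → s.lt y z → s.lt x z
  tri : P → ∀ x y, x ≠ y → s.lt x y ∨ s.lt y x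

theorem Str.OH.uok {U : Type} {s : Str U} (h : s.OH) (P : Prop) : UOK P s :=
  ⟨h.ht, h.h4, fun _ => h.irr, fun _ => h.tr, fun _ => h.tri⟩

/-- `h` is a partial embedding on `F`; the order is preserved if `P` holds. -/
structure PE {U V : Type} (P : Prop) (u : Str U) (s : Str V) (F : Set U) (h : U → V) : Prop where
  inj : ∀ x ∈ F, ∀ y ∈ F, h x = h y → x = y
  r : ∀ x ∈ F, ∀ y ∈ F, ∀ z ∈ F, (s.r (h x) (h y) (h z) ↔ u.r x y z)
  lt : P → ∀ x ∈ F, ∀ y ∈ F, (s.lt (h x) (h y) ↔ u.lt x y)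

theorem PE.extend {U V : Type} [DecidableEq U] {P : Prop} {u : Str U} {s : Str V} (hs : s.OH)
    (hep : EP s) (hu : UOK P u) {F : Finset U} {h : U → V} (hh : PE P u s (F : Set U) h) {b : U}
    (hb : b ∉ F) : ∃ v, PE P u s (insert b (F : Set U)) (update h b v) := by
  classical
  -- the inverse of `h`
  obtain ⟨g, hg⟩ : ∃ g : V → U, ∀ x ∈ F, g (h x) = x := by
    refine ⟨fun y => if hy : ∃ x ∈ F, h x = y then hy.choose else b, fun x hx => ?_⟩
    have hy : ∃ x' ∈ F, h x' = h x := ⟨x, hx, rfl⟩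
    simp only [dif_pos hy]
    exact hh.inj _ hy.choose_spec.1 _ hx hy.choose_spec.2
  have hbne : ∀ x ∈ F, b ≠ x := fun x hx hc => hb (hc ▸ hx)
  have sh : ∀ x y z, u.r x y z → u.r z x y := fun x y z h' => hu.ht.cyc _ _ _ (hu.ht.cyc _ _ _ h')
  have hv : Valid s (· ∈ F.image h) (fun x y => u.r b (g x) (g y)) (fun x => P → u.lt (g x) b) := by
    refine ⟨?_, ?_, ?_⟩
    · intro x' y' hx' hy' hxy
      obtain ⟨x, hx, rfl⟩ := Finset.mem_image.1 hx'
      obtain ⟨y, hy, rfl⟩ := Finset.mem_image.1 hy'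
      show u.r b (g (h x)) (g (h y)) ↔ ¬ u.r b (g (h y)) (g (h x))
      rw [hg x hx, hg y hy]
      exact hu.ht.tot b x y (hbne x hx) (fun h' => hxy (congrArg h h')) (hbne y hy)
    · intro x' y' z' hx' hy' hz' h1 h2 h3 h4 h5 h6
      obtain ⟨x, hx, rfl⟩ := Finset.mem_image.1 hx'
      obtain ⟨y, hy, rfl⟩ := Finset.mem_image.1 hy'
      obtain ⟨z, hz, rfl⟩ := Finset.mem_image.1 hz'
      rw [hg x hx, hg y hy] at h4
      rw [hg y hy, hg z hz] at h5
      rw [hg z hz, hg x hx] at h6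
      rw [hh.r x hx y hy z hz]
      have h7 := hu.h4 x y z b (hu.ht.cyc _ _ _ h4) (hu.ht.cyc _ _ _ h5) (hu.ht.cyc _ _ _ h6)
      rw [hu.ht.tot x y z (fun h' => h1 (congrArg h h')) (fun h' => h2 (congrArg h h'))
        (fun h' => h3 (congrArg h h'))]
      exact h7
    · intro x' y' hx' hy' h1 h2 hP
      obtain ⟨x, hx, rfl⟩ := Finset.mem_image.1 hx'
      obtain ⟨y, hy, rfl⟩ := Finset.mem_image.1 hy'
      have h3 := h2 hP
      rw [hg y hy] at h3
      rw [hg x hx]
      exact hu.tr hP _ _ _ ((hh.lt hP x hx y hy).1 h1) h3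
  obtain ⟨v, hv1, hv2, hv3⟩ := hep _ _ _ hv
  have hvne : ∀ x ∈ F, v ≠ h x := fun x hx hc => hv1 (hc ▸ Finset.mem_image_of_mem h hx)
  have hub : update h b v b = v := update_self _ _ _
  have huF : ∀ x ∈ F, update h b v x = h x := fun x hx => update_of_ne (hbne x hx).symm _ _
  have key : ∀ x ∈ F, ∀ y ∈ F, (s.r v (h x) (h y) ↔ u.r b x y) := by
    intro x hx y hy
    by_cases hxy : x = y
    · subst hxy
      constructor
      · intro h'
        exact absurd rfl (hs.ht.ne _ _ _ h').2.1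
      · intro h'
        exact absurd rfl (hu.ht.ne _ _ _ h').2.1
    · rw [hv2 _ (Finset.mem_image_of_mem h hx) _ (Finset.mem_image_of_mem h hy)
        (fun hc => hxy (hh.inj x hx y hy hc))]
      show u.r b (g (h x)) (g (h y)) ↔ _
      rw [hg x hx, hg y hy]
  refine ⟨v, ?_, ?_, ?_⟩
  · rintro x (rfl | hx) y (rfl | hy) hxy
    · rfl
    · rw [hub, huF y hy] at hxy
      exact absurd hxy (hvne y hy)
    · rw [hub, huF x hx] at hxy
      exact absurd hxy.symm (hvne x hx)
    · rw [huF x hx, huF y hy] at hxy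
      exact hh.inj x hx y hy hxy
  · have ne1 : ∀ x z, ¬ s.r x x z := fun x z h' => (hs.ht.ne _ _ _ h').1 rfl
    have ne2 : ∀ x z, ¬ s.r x z z := fun x z h' => (hs.ht.ne _ _ _ h').2.1 rfl
    have ne3 : ∀ x z, ¬ s.r x z x := fun x z h' => (hs.ht.ne _ _ _ h').2.2 rfl
    have me1 : ∀ x z, ¬ u.r x x z := fun x z h' => (hu.ht.ne _ _ _ h').1 rfl
    have me2 : ∀ x z, ¬ u.r x z z := fun x z h' => (hu.ht.ne _ _ _ h').2.1 rfl
    have me3 : ∀ x z, ¬ u.r x z x := fun x z h' => (hu.ht.ne _ _ _ h').2.2 rfl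
    rintro x (rfl | hx) y (rfl | hy) z (rfl | hz)
    · simp only [ne1, me1]
    · simp only [ne1, me1]
    · simp only [ne3, me3]
    · rw [hub, huF y hy, huF z hz]
      exact key y hy z hz
    · simp only [ne2, me2]
    · rw [hub, huF x hx, huF z hz, hs.ht.cyc' (h x), hu.ht.cyc' x]
      exact key z hz x hx
    · rw [hub, huF x hx, huF y hy, ← hs.ht.cyc' v, ← hu.ht.cyc' z]
      exact key x hx y hy
    · rw [huF x hx, huF y hy, huF z hz]
      exact hh.r x hx y hy z hz
  · intro hP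
    have key2 : ∀ x ∈ F, (s.lt (h x) v ↔ u.lt x b) := by
      intro x hx
      rw [hv3 _ (Finset.mem_image_of_mem h hx)]
      show (P → u.lt (g (h x)) b) ↔ _
      rw [hg x hx]
      exact ⟨fun h' => h' hP, fun h' _ => h'⟩
    rintro x (rfl | hx) y (rfl | hy)
    · rw [hub]
      exact ⟨fun h' => absurd h' (hs.irr _), fun h' => absurd h' (hu.irr hP _)⟩
    · rw [hub, huF y hy]
      have h1 := key2 y hy
      constructor
      · intro h'
        rcases hu.tri hP _ _ (hbne y hy) with h2 | h2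
        · exact h2
        · exact absurd (hs.tr _ _ _ h' (h1.2 h2)) (hs.irr _)
      · intro h'
        rcases hs.tri _ _ (hvne y hy) with h2 | h2
        · exact h2
        · exact absurd (hu.tr hP _ _ _ h' (h1.1 h2)) (hu.irr hP _)
    · rw [hub, huF x hx]
      exact key2 x hx
    · rw [huF x hx, huF y hy]
      exact hh.lt hP x hx y hy

/-- Universality for finite structures. -/
theorem exists_embed {U V : Type} [Finite U] {P : Prop} {u : Str U} {s : Str V} (hs : s.OH)
    (hep : EP s) (hu : UOK P u) : ∃ h : U → V, PE P u s Set.univ h := by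
  classical
  obtain ⟨v0, _⟩ := hep ∅ (fun _ _ => True) (fun _ => True)
    ⟨fun x y hx => absurd hx (by simp), fun x y z hx => absurd hx (by simp),
      fun x y hx => absurd hx (by simp)⟩
  have := Fintype.ofFinite U
  have key : ∀ F : Finset U, ∃ h : U → V, PE P u s (F : Set U) h := by
    intro F
    induction F using Finset.induction_on with
    | empty =>
      exact ⟨fun _ => v0, fun x hx => absurd hx (by simp), fun x hx => absurd hx (by simp),
        fun _ x hx => absurd hx (by simp)⟩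
    | insert b F hb ih =>
      obtain ⟨h, hh⟩ := ih
      obtain ⟨v, hv⟩ := hh.extend hs hep hu hb
      exact ⟨update h b v, by rw [Finset.coe_insert]; exact hv⟩
  obtain ⟨h, hh⟩ := key Finset.univ
  rw [Finset.coe_univ] at hh
  exact ⟨h, hh⟩

end Pool.Agent.H439_Hyper
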