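import Pool.Agent.H439_Hyper.Defs
import Pool.Agent.H439_Hyper.Ultra
import Pool.Agent.H439_Hyper.PE

/-!
# The generic `H_4`-free 3-hypertournament has a finite-language Ramsey expansion: the proof
-/

set_option autoImplicit false

namespace Pool.Agent.H439_Hyper

open FirstOrder Language Structure CategoryTheory

instance : LR.IsRelational := fun _ => inferInstanceAs (IsEmpty Empty)

instance : LRlt.IsRelational := fun _ => inferInstanceAs (IsEmpty Empty)


theorem vec3 {α : Type} (x : Fin 3 → α) : x = ![x 0, x 1, x 2] := by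
  funext i
  fin_cases i <;> rfl

theorem vec2 {α : Type} (x : Fin 2 → α) : x = ![x 0, x 1] := by
  funext i
  fin_cases i <;> rfl

/-- the `{R}`-structure given by a ternary relation -/
@[instance_reducible]
def strR {V : Type} (s : Str V) : LR.Structure V where
  funMap := fun f => f.elim
  RelMap := fun {n} r x => match n, r, x with
    | 3, Sym.R, x => s.r (x 0) (x 1) (x 2)

/-- the `{R, <}`-structure given by a ternary and a binary relation -/
@[instance_reducible]
def strLt {V : Type} (s : Str V) : LRlt.Structure V where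
  funMap := fun f => f.elim
  RelMap := fun {n} r x => match n, r, x with
    | 3, SymLt.R, x => s.r (x 0) (x 1) (x 2)
    | 2, SymLt.lt, x => s.lt (x 0) (x 1)

/-- the relations of a `{R}`-structure (the order is irrelevant) -/
def ofR (M : Type) [LR.Structure M] : Str M := ⟨HoldsR M, fun _ _ => False⟩

/-- the relations of a `{R, <}`-structure -/
def ofLt (M : Type) [LRlt.Structure M] : Str M :=
  ⟨fun x y z => RelMap (L := LRlt) SymLt.R ![x, y, z],
    fun x y => RelMap (L := LRlt) SymLt.lt ![x, y]⟩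

theorem holdsR_strR {V : Type} (s : Str V) (x y z : V) :
    @HoldsR V (strR s) x y z ↔ s.r x y z := Iff.rfl

theorem good_R {M N : Type} [LR.Structure M] [LR.Structure N] (S : Set M) (h : M → N) :
    Good LR S h ↔ PE False (ofR M) (ofR N) S h := by
  constructor
  · rintro ⟨h1, h2⟩
    refine ⟨h1, fun x hx y hy z hz => ?_, fun hf => hf.elim⟩
    have h3 := h2 3 Sym.R ![x, y, z] (by
      intro i
      fin_cases i
      · exact hx
      · exact hy
      · exact hz)
    rw [vec3 (h ∘ ![x, y, z])] at h3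
    exact h3
  · rintro ⟨h1, h2, -⟩
    refine ⟨h1, fun n r x hx => ?_⟩
    match n, r, x, hx with
    | 3, Sym.R, x, hx =>
      have h3 := h2 (x 0) (hx 0) (x 1) (hx 1) (x 2) (hx 2)
      rw [vec3 x, vec3 (h ∘ ![x 0, x 1, x 2])]
      exact h3

theorem good_Lt {M N : Type} [LRlt.Structure M] [LRlt.Structure N] (S : Set M) (h : M → N) :
    Good LRlt S h ↔ PE True (ofLt M) (ofLt N) S h := by
  constructor
  · rintro ⟨h1, h2⟩
    refine ⟨h1, fun x hx y hy z hz => ?_, fun _ x hx y hy => ?_⟩
    · have h3 := h2 3 SymLt.R ![x, y, z] (by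
        intro i
        fin_cases i
        · exact hx
        · exact hy
        · exact hz)
      rw [vec3 (h ∘ ![x, y, z])] at h3
      exact h3
    · have h3 := h2 2 SymLt.lt ![x, y] (by
        intro i
        fin_cases i
        · exact hx
        · exact hy)
      rw [vec2 (h ∘ ![x, y])] at h3
      exact h3
  · rintro ⟨h1, h2, h3⟩
    refine ⟨h1, fun n r x hx => ?_⟩
    match n, r, x, hx with
    | 3, SymLt.R, x, hx =>
      have h4 := h2 (x 0) (hx 0) (x 1) (hx 1) (x 2) (hx 2)
      rw [vec3 x, vec3 (h ∘ ![x 0, x 1, x 2])]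
      exact h4
    | 2, SymLt.lt, x, hx =>
      have h4 := h3 trivial (x 0) (hx 0) (x 1) (hx 1)
      rw [vec2 x, vec2 (h ∘ ![x 0, x 1])]
      exact h4

/-- embeddings of relational structures as partial isomorphisms with full domain -/
theorem good_of_emb {L : FirstOrder.Language.{0, 0}} {M N : Type} [L.Structure M] [L.Structure N]
    (e : M ↪[L] N) : Good L Set.univ (e : M → N) :=
  ⟨fun x _ y _ h => e.injective h, fun _ R x _ => e.map_rel R x⟩

theorem emb_of_good {L : FirstOrder.Language.{0, 0}} [L.IsRelational] {M N : Type} [L.Structure M]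
    [L.Structure N] {h : M → N} (hg : Good L Set.univ h) : ∃ e : M ↪[L] N, ∀ x, e x = h x :=
  ⟨{ toFun := h
     inj' := fun x y hxy => hg.1 x trivial y trivial hxy
     map_fun' := fun f => isEmptyElim f
     map_rel' := fun R x => hg.2 _ R x fun _ => trivial }, fun _ => rfl⟩

theorem ht_ofR {M : Type} [LR.Structure M] (h : IsHypertournament M) : HT (ofR M).r :=
  ⟨h.distinct, h.shift, h.orientation⟩

/-- the relation of `H_4` -/
def h4r (x y z : Fin 4) : Prop := H4Rel x y z

instance (x y z : Fin 4) : Decidable (h4r x y z) := by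
  unfold h4r H4Rel
  infer_instance

theorem ht_h4r : HT h4r := ⟨by decide, by decide, by decide⟩

theorem isEmpty_iff {M : Type} [LR.Structure M] (h : IsHypertournament M) :
    IsEmpty (H4 ↪[LR] M) ↔ H4F (ofR M).r := by
  constructor
  · intro he a b c d h1 h2 h3 h4
    have ht := ht_ofR h
    have nad := (ht.ne _ _ _ h1).2.2
    have nbd := (ht.ne _ _ _ h2).2.2
    have ncd := (ht.ne _ _ _ h3).2.2
    have nab := (ht.ne _ _ _ h1).1
    have nbc := (ht.ne _ _ _ h2).1
    have nca := (ht.ne _ _ _ h3).1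
    let v : Fin 4 → M := ![a, b, c, d]
    have hinj : Function.Injective v := by
      intro i j hij
      fin_cases i <;> fin_cases j <;> first
        | rfl
        | exact absurd hij nab
        | exact absurd hij nab.symm
        | exact absurd hij nbc
        | exact absurd hij nbc.symm
        | exact absurd hij nca
        | exact absurd hij nca.symm
        | exact absurd hij nad
        | exact absurd hij nad.symm
        | exact absurd hij nbd
        | exact absurd hij nbd.symm
        | exact absurd hij ncd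
        | exact absurd hij ncd.symm
    have hv : HT fun x y z : Fin 4 => (ofR M).r (v x) (v y) (v z) :=
      { ne := fun x y z h' => by
          obtain ⟨h1, h2, h3⟩ := ht.ne _ _ _ h'
          exact ⟨fun h => h1 (congrArg v h), fun h => h2 (congrArg v h),
            fun h => h3 (congrArg v h)⟩
        cyc := fun x y z h' => ht.cyc _ _ _ h'
        tot := fun x y z h1 h2 h3 => ht.tot _ _ _ (fun h => h1 (hinj h)) (fun h => h2 (hinj h))
          (fun h => h3 (hinj h)) }
    have key := hv.ext_of_increasing ht_h4r (by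
      have e1 : ¬ (ofR M).r a b c := (ht.tot a c b nca.symm nbc.symm nab).1 h4
      have e2 : ¬ (ofR M).r a c d := by
        rw [ht.tot a c d nca.symm ncd nad, not_not]
        exact ht.cyc _ _ _ h3
      intro x y z hxy hyz
      fin_cases x <;> fin_cases y <;> fin_cases z <;> first
        | exact absurd hxy (by decide)
        | exact absurd hyz (by decide)
        | exact iff_of_false e1 (by decide)
        | exact iff_of_true h1 (by decide)
        | exact iff_of_false e2 (by decide)
        | exact iff_of_true h2 (by decide))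
    have hg := (good_R (M := H4) (N := M) Set.univ v).2
      ⟨fun x _ y _ hxy => hinj hxy, fun x _ y _ z _ => key x y z, fun hf => hf.elim⟩
    obtain ⟨e, -⟩ := emb_of_good hg
    exact he.elim e
  · intro hf
    refine ⟨fun e => ?_⟩
    have hg := (good_R _ _).1 (good_of_emb e)
    have key : ∀ x y z : Fin 4, h4r x y z → (ofR M).r (e x) (e y) (e z) := fun x y z h' =>
      (hg.r x trivial y trivial z trivial).2 h'
    exact hf (e (0 : Fin 4)) (e (1 : Fin 4)) (e (2 : Fin 4)) (e (3 : Fin 4))
      (key 0 1 3 (by decide)) (key 1 2 3 (by decide)) (key 2 0 3 (by decide))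
      (key 0 2 1 (by decide))

/-- the axioms pass to substructures -/
theorem oh_of_pe {U V : Type} {u : Str U} {s : Str V} (hs : s.OH) {h : U → V}
    (hh : PE True u s Set.univ h) : u.OH := by
  have hr : ∀ x y z, u.r x y z ↔ s.r (h x) (h y) (h z) := fun x y z =>
    (hh.r x trivial y trivial z trivial).symm
  have hl : ∀ x y, u.lt x y ↔ s.lt (h x) (h y) := fun x y =>
    (hh.lt trivial x trivial y trivial).symm
  have hinj : ∀ x y, x ≠ y → h x ≠ h y := fun x y hxy hc => hxy (hh.inj x trivial y trivial hc)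
  refine ⟨⟨fun x y z h' => ?_, fun x y z h' => ?_, fun x y z h1 h2 h3 => ?_⟩,
    fun a b c d h1 h2 h3 h4 => ?_, fun x h' => ?_, fun x y z h1 h2 => ?_, fun x y hxy => ?_⟩
  · obtain ⟨h1, h2, h3⟩ := hs.ht.ne _ _ _ ((hr x y z).1 h')
    exact ⟨fun hc => h1 (congrArg h hc), fun hc => h2 (congrArg h hc),
      fun hc => h3 (congrArg h hc)⟩
  · exact (hr _ _ _).2 (hs.ht.cyc _ _ _ ((hr _ _ _).1 h'))
  · rw [hr, hr]
    exact hs.ht.tot _ _ _ (hinj _ _ h1) (hinj _ _ h2) (hinj _ _ h3)
  · exact hs.h4 _ _ _ _ ((hr _ _ _).1 h1) ((hr _ _ _).1 h2) ((hr _ _ _).1 h3) ((hr _ _ _).1 h4)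
  · exact hs.irr _ ((hl _ _).1 h')
  · exact (hl _ _).2 (hs.tr _ _ _ ((hl _ _).1 h1) ((hl _ _).1 h2))
  · rw [hl, hl]
    exact hs.tri _ _ (hinj _ _ hxy)

/-- increasing enumerations -/
theorem exists_enum {U : Type} [Finite U] {u : Str U} (hu : u.OH) :
    ∃ (m : ℕ) (e : Fin m ≃ U), ∀ x y, u.lt (e x) (e y) ↔ x < y := by
  let lo : LinearOrder U := mkLO u.lt hu.irr hu.tr hu.tri
  have := Fintype.ofFinite U
  let e : Fin (Fintype.card U) ≃o U := Fintype.orderIsoFinOfCardEq U rfl
  exact ⟨_, e.toEquiv, fun x y => e.lt_iff_lt⟩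

theorem ultra_transfer {L : FirstOrder.Language.{0, 0}} {M N : Type} [L.Structure M]
    [L.Structure N] (e : M ≃[L] N) (h : L.IsUltrahomogeneous N) : L.IsUltrahomogeneous M := by
  intro S hS f
  obtain ⟨g, hg⟩ := h (S.map e.toHom) (hS.map _)
    ((e.toEmbedding.comp f).comp (e.toEmbedding.substructureEquivMap S).symm.toEmbedding)
  refine ⟨e.symm.comp (g.comp e), ?_⟩
  ext x
  have h1 : e (f ((e.toEmbedding.substructureEquivMap S).symm
      (e.toEmbedding.substructureEquivMap S x))) = g (e x) :=
    congrArg (fun k : _ ↪[L] N => k (e.toEmbedding.substructureEquivMap S x)) hg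
  rw [FirstOrder.Language.Equiv.symm_apply_apply] at h1
  show f x = e.symm (g (e x))
  rw [← h1, FirstOrder.Language.Equiv.symm_apply_apply]

/-- The age of the generic structure with the order has the Ramsey property. -/
theorem ramsey_generic {s : Str ℕ} (hs : s.OH) (hep : EP s) :
    RamseyProperty (@age LRlt ℕ (strLt s)) := by
  classical
  let _ := strLt s
  intro A hA B hB k hk
  obtain ⟨hAfg, ⟨iA⟩⟩ := hA
  obtain ⟨hBfg, ⟨iB⟩⟩ := hB
  have hAfin : Finite A := Structure.fg_iff_finite.1 hAfg
  have hBfin : Finite B := Structure.fg_iff_finite.1 hBfg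
  have hAoh : (ofLt A).OH := oh_of_pe (s := s) hs ((good_Lt _ _).1 (good_of_emb iA))
  have hBoh : (ofLt B).OH := oh_of_pe (s := s) hs ((good_Lt _ _).1 (good_of_emb iB))
  obtain ⟨m, eA, heA⟩ := exists_enum hAoh
  obtain ⟨n, eB, heB⟩ := exists_enum hBoh
  have hA' := hAoh.comap eA.injective
  have hB' := hBoh.comap eB.injective
  have : Nonempty (Fin k) := ⟨⟨0, hk⟩⟩
  obtain ⟨V, _, _, f, hf, hArr⟩ := step2 (((ofLt A).comap eA).r) (((ofLt B).comap eB).r)
    (hA'.ht.noAlt hA'.h4) (hB'.ht.noAlt hB'.h4) (Fin k)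
  let sV : Str V := ⟨rOf f, fun x y => x < y⟩
  have hV : sV.OH := ⟨rOf_HT f, rOf_H4F hf, fun x => lt_irrefl x, fun x y z => lt_trans,
    fun x y => lt_or_gt_of_ne⟩
  let _ := strLt sV
  refine ⟨⟨V, strLt sV⟩, ⟨?_, ?_⟩, ?_⟩
  · exact Structure.fg_iff_finite.2 inferInstance
  · obtain ⟨h, hh⟩ := exists_embed hs hep (hV.uok True)
    obtain ⟨e, -⟩ := emb_of_good ((good_Lt (M := V) (N := ℕ) Set.univ h).2 hh)
    exact ⟨e⟩
  · intro χ
    change {A' : LRlt.Substructure V // Nonempty (A ≃[LRlt] A')} → Fin k at χ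
    let sub : Finset V → LRlt.Substructure V := fun F => subOf (F : Set V)
    let χ' : Finset V → Fin k := fun F =>
      if h : Nonempty (A ≃[LRlt] sub F) then χ ⟨sub F, h⟩ else ⟨0, hk⟩
    have hχ' : ∀ (F : Finset V) (S : {A' : LRlt.Substructure V // Nonempty (A ≃[LRlt] A')}),
        sub F = S.1 → χ' F = χ S := by
      rintro F ⟨S, hS⟩ h
      subst h
      exact dif_pos hS
    obtain ⟨b, hb, c, hc⟩ := hArr χ'
    -- the copy of `B`
    have hβ : PE True (ofLt B) sV Set.univ fun y => b (eB.symm y) := by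
      refine ⟨?_, ?_, ?_⟩
      · intro x _ y _ hxy
        exact eB.symm.injective (b.injective hxy)
      · have h1 : HT fun x y z : Fin n => rOf f (b x) (b y) (b z) := by
          have := (hV.comap (e := fun x => b x) b.injective).ht
          exact this
        have h2 := h1.ext_of_increasing hB'.ht (by
          intro x y z hxy hyz
          rw [rOf_1 (b.strictMono hxy) (b.strictMono hyz)]
          exact hb x y z hxy hyz)
        intro x _ y _ z _
        have h3 := h2 (eB.symm x) (eB.symm y) (eB.symm z)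
        simp only [Str.comap, Equiv.apply_symm_apply] at h3
        exact h3
      · intro _ x _ y _
        have h1 := heB (eB.symm x) (eB.symm y)
        rw [Equiv.apply_symm_apply, Equiv.apply_symm_apply] at h1
        rw [h1]
        exact b.lt_iff_lt
    obtain ⟨β, hβ'⟩ := emb_of_good ((good_Lt (M := B) (N := V) Set.univ _).2 hβ)
    refine ⟨β.toHom.range, ⟨β.equivRange⟩, ?_⟩
    have main : ∀ A₁ : {A' : LRlt.Substructure V // Nonempty (A ≃[LRlt] A')},
        A₁.1 ≤ β.toHom.range → χ A₁ = c := by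
      intro A₁ hle
      obtain ⟨φ⟩ := A₁.2
      have hφ := (good_Lt (M := A) (N := V) Set.univ _).1
        (good_of_emb (A₁.1.subtype.comp φ.toEmbedding))
      have hφa : ∀ x, (A₁.1.subtype.comp φ.toEmbedding) x = (φ x : V) := fun x => rfl
      have hex : ∀ i : Fin m, ∃ j : Fin n, b j = (φ (eA i) : V) := by
        intro i
        obtain ⟨y, hy⟩ := hle (φ (eA i)).2
        refine ⟨eB.symm y, ?_⟩
        rw [← hβ' y]
        exact hy
      choose j hj using hex
      have hmono : StrictMono j := by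
        intro i i' hii'
        have h1 := (hφ.lt trivial (eA i) trivial (eA i') trivial).2 ((heA i i').2 hii')
        rw [hφa, hφa, ← hj, ← hj] at h1
        exact b.lt_iff_lt.1 h1
      let a : Fin m ↪o Fin n := OrderEmbedding.ofStrictMono j hmono
      have ha : Pres (((ofLt A).comap eA).r) (((ofLt B).comap eB).r) a := by
        intro x y z hxy hyz
        have h1 := hφ.r (eA x) trivial (eA y) trivial (eA z) trivial
        rw [hφa, hφa, hφa, ← hj, ← hj, ← hj] at h1
        have h2 : rOf f (b (j x)) (b (j y)) (b (j z)) ↔ f (b (j x)) (b (j y)) (b (j z)) :=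
          rOf_1 (b.strictMono (hmono hxy)) (b.strictMono (hmono hyz))
        have h3 := hb (j x) (j y) (j z) (hmono hxy) (hmono hyz)
        exact h3.symm.trans (h2.symm.trans h1)
      rw [← hc a ha]
      refine (hχ' _ A₁ ?_).symm
      ext x
      constructor
      · intro hx
        have hx' : x ∈ img (a.trans b) := hx
        obtain ⟨i, rfl⟩ := mem_img.1 hx'
        have h1 : (a.trans b) i = (φ (eA i) : V) := hj i
        rw [h1]
        exact (φ (eA i)).2
      · intro hx
        show x ∈ img (a.trans b)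
        refine mem_img.2 ⟨eA.symm (φ.symm ⟨x, hx⟩), ?_⟩
        have h1 : (a.trans b) (eA.symm (φ.symm ⟨x, hx⟩)) =
            (φ (eA (eA.symm (φ.symm ⟨x, hx⟩))) : V) := hj _
        rw [h1, Equiv.apply_symm_apply, FirstOrder.Language.Equiv.apply_symm_apply]
    intro A₁ A₂ h1 h2
    rw [main A₁ h1, main A₂ h2]

/-- The `{R}`-reduct of the generic structure is ultrahomogeneous. -/
theorem ultra_R {s : Str ℕ} (hs : s.OH) (hep : EP s) : @IsUltrahomogeneous LR ℕ (strR s) := by
  let _ := strR s
  refine ultra_of_good fun S h hg m hm => ?_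
  have hu : UOK False (ofR ℕ) := ⟨hs.ht, hs.h4, fun h => h.elim, fun h => h.elim, fun h => h.elim⟩
  have h1 := (good_R _ _).1 hg
  have h2 : PE False (ofR ℕ) s (S : Set ℕ) h := ⟨h1.inj, h1.r, fun h => h.elim⟩
  obtain ⟨v, hv⟩ := h2.extend hs hep hu hm
  exact ⟨v, (good_R _ _).2 ⟨hv.inj, hv.r, fun h => h.elim⟩⟩

/-- The generic structure is ultrahomogeneous. -/
theorem ultra_Lt {s : Str ℕ} (hs : s.OH) (hep : EP s) :
    @IsUltrahomogeneous LRlt ℕ (strLt s) := by
  let _ := strLt s
  refine ultra_of_good fun S h hg m hm => ?_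
  have h1 : PE True s s (S : Set ℕ) h := (good_Lt _ _).1 hg
  obtain ⟨v, hv⟩ := h1.extend hs hep (hs.uok True) hm
  exact ⟨v, (good_Lt (M := ℕ) (N := ℕ) _ _).2 hv⟩

/-- The age of the `{R}`-reduct of the generic structure is `𝒲`. -/
theorem age_R {s : Str ℕ} (hs : s.OH) (hep : EP s) : @age LR ℕ (strR s) = W := by
  let _ := strR s
  have hN : IsHypertournament ℕ := ⟨hs.ht.ne, hs.ht.cyc, hs.ht.tot⟩
  have hempty : IsEmpty (H4 ↪[LR] ℕ) := (isEmpty_iff hN).2 hs.h4
  ext A
  constructor
  · rintro ⟨hfg, ⟨e⟩⟩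
    have hg := (good_R _ _).1 (good_of_emb e)
    have hr : ∀ x y z : A, HoldsR A x y z ↔ s.r (e x) (e y) (e z) := fun x y z =>
      (hg.r x trivial y trivial z trivial).symm
    refine ⟨Structure.fg_iff_finite.1 hfg, ⟨?_, ?_, ?_⟩, ⟨fun i => hempty.elim (e.comp i)⟩⟩
    · intro x y z h
      obtain ⟨h1, h2, h3⟩ := hs.ht.ne _ _ _ ((hr _ _ _).1 h)
      exact ⟨fun hc => h1 (congrArg e hc), fun hc => h2 (congrArg e hc),
        fun hc => h3 (congrArg e hc)⟩
    · intro x y z h
      exact (hr _ _ _).2 (hs.ht.cyc _ _ _ ((hr _ _ _).1 h))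
    · intro x y z h1 h2 h3
      rw [hr, hr]
      exact hs.ht.tot _ _ _ (e.injective.ne h1) (e.injective.ne h2) (e.injective.ne h3)
  · rintro ⟨hfin, hyp, hfree⟩
    refine ⟨Structure.fg_iff_finite.2 hfin, ?_⟩
    have hu : UOK False (ofR A) := ⟨ht_ofR hyp, (isEmpty_iff hyp).1 hfree, fun h => h.elim,
      fun h => h.elim, fun h => h.elim⟩
    obtain ⟨h, hh⟩ := exists_embed hs hep hu
    obtain ⟨e, -⟩ := emb_of_good ((good_R (M := A) (N := ℕ) Set.univ h).2
      ⟨hh.inj, hh.r, fun h => h.elim⟩)
    exact ⟨e⟩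

theorem isFraisseLimit_R {s : Str ℕ} (hs : s.OH) (hep : EP s) :
    @IsFraisseLimit LR W ℕ (strR s) _ _ :=
  let _ := strR s
  ⟨ultra_R hs hep, age_R hs hep⟩

theorem finite_LRlt : Finite (Σ n, LRlt.Relations n) := by
  refine Finite.of_surjective (fun b : Bool =>
    (if b then ⟨3, SymLt.R⟩ else ⟨2, SymLt.lt⟩ : Σ n, LRlt.Relations n)) ?_
  rintro ⟨n, r⟩
  match n, r with
  | 3, SymLt.R => exact ⟨true, rfl⟩
  | 2, SymLt.lt => exact ⟨false, rfl⟩

/-- The main theorem. -/
theorem main :
    (∃ (M : Type) (_ : LR.Structure M) (_ : Countable M), IsFraisseLimit W M) ∧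
    ∀ (M : Type) [LR.Structure M] [Countable M], IsFraisseLimit W M →
      ∃ lt : M → M → Prop, IsStrictTotalOrder M lt ∧
        IsFiniteLanguageRamseyExpansion incl M (expandBy M lt) := by
  obtain ⟨s, hs, hep⟩ := exists_generic
  refine ⟨⟨ℕ, strR s, inferInstance, isFraisseLimit_R hs hep⟩, fun M _ _ hM => ?_⟩
  let _ := strR s
  let _ := strLt s
  obtain ⟨e⟩ := hM.nonempty_equiv (isFraisseLimit_R hs hep)
  let lt : M → M → Prop := fun x y => s.lt (e x) (e y)
  let _ := expandBy M lt
  let e' : M ≃[LRlt] ℕ :=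
    { toEquiv := e.toEquiv
      map_fun' := fun f => isEmptyElim f
      map_rel' := fun {n} r x => match n, r, x with
        | 3, SymLt.R, x => e.map_rel Sym.R x
        | 2, SymLt.lt, x => Iff.rfl }
  refine ⟨lt, ?_, ?_⟩
  · exact
      { trichotomous := fun x y h1 h2 => by
          by_contra hne
          rcases hs.tri (e x) (e y) (fun hc => hne (e.injective hc)) with h | h
          · exact h1 h
          · exact h2 h
        irrefl := fun x => hs.irr _
        trans := fun x y z => hs.tr _ _ _ }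
  · refine ⟨inferInstance, finite_LRlt, ⟨fun {n} f => isEmptyElim f, ?_⟩, ⟨?_, ?_⟩,
      ultra_transfer e' (ultra_Lt hs hep), ?_⟩
    · intro n r r' _
      match n, r, r' with
      | 3, Sym.R, Sym.R => rfl
    · intro n f
      exact isEmptyElim f
    · intro n r x
      match n, r, x with
      | 3, Sym.R, x => rfl
    · rw [FirstOrder.Language.Equiv.age_eq_age e']
      exact ramsey_generic hs hep

end Pool.Agent.H439_Hyper
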