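import Mathlib

/-!
# Partite systems and the partite construction

A partite system over a finite index set `I` has the parts `{v} × X`, `v ∈ I`, and some of its
partial sections are marked.  One step of the partite construction (from the Hales-Jewett theorem)
makes all the copies of a given pattern over one set `α` of parts have the same colour; it does not
create new cliques of marked pairs, apart from those which lie over `α`.
-/

set_option autoImplicit false

namespace Pool.Agent.H439_Hyper

open Finset Function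

/-- A partite system over `I`: the part over `v` is a copy of the finite set `X`; `S t s` says that
the section `s`, restricted to `t`, is marked. -/
structure PS (I : Type) where
  X : Type
  fin : Finite X
  S : Finset I → (I → X) → Prop
  loc : ∀ t s s', (∀ v ∈ t, s v = s' v) → S t s → S t s'

variable {I : Type}

theorem PS.loc_iff (P : PS I) {t : Finset I} {s s' : I → P.X} (h : ∀ v ∈ t, s v = s' v) :
    P.S t s ↔ P.S t s' :=
  ⟨P.loc t s s' h, P.loc t s' s fun v hv => (h v hv).symm⟩

/-- Embeddings of partite systems, given part by part. -/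
def IsEmb (P Q : PS I) (g : I → P.X → Q.X) : Prop :=
  ∀ t s, Q.S t (fun v => g v (s v)) ↔ P.S t s

/-- The section `s` over `α` is a copy of the pattern `T`. -/
def Copy (P : PS I) (α : Finset I) (T : Finset I → Prop) (s : I → P.X) : Prop :=
  ∀ t ⊆ α, (P.S t s ↔ T t)

/-- All pairs of the section `s` over `t` are marked. -/
def PM [DecidableEq I] (P : PS I) (t : Finset I) (s : I → P.X) : Prop :=
  ∀ u ∈ t, ∀ v ∈ t, u ≠ v → P.S {u, v} s

open Classical in
/-- The set of vertices of the section `s` over `α`. -/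
noncomputable def gr {X : Type} (α : Finset I) (s : I → X) : Finset (I × X) :=
  α.image fun v => (v, s v)

theorem mem_gr {X : Type} {α : Finset I} {s : I → X} {z : I × X} :
    z ∈ gr α s ↔ z.1 ∈ α ∧ z.2 = s z.1 := by
  classical
  unfold gr
  rw [Finset.mem_image]
  constructor
  · rintro ⟨v, hv, rfl⟩
    exact ⟨hv, rfl⟩
  · rintro ⟨h1, h2⟩
    exact ⟨z.1, h1, by rw [← h2]⟩

theorem gr_congr {X : Type} {α : Finset I} {s s' : I → X} (h : ∀ v ∈ α, s v = s' v) :
    gr α s = gr α s' := by
  ext z
  rw [mem_gr, mem_gr]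
  constructor
  · rintro ⟨h1, h2⟩
    exact ⟨h1, h2.trans (h _ h1)⟩
  · rintro ⟨h1, h2⟩
    exact ⟨h1, h2.trans (h _ h1).symm⟩

open Classical in
/-- The image of a set of vertices under a map given part by part. -/
noncomputable def push {X Y : Type} (g : I → X → Y) (F : Finset (I × X)) : Finset (I × Y) :=
  F.image fun z => (z.1, g z.1 z.2)

theorem push_gr {X Y : Type} (g : I → X → Y) (α : Finset I) (s : I → X) :
    push g (gr α s) = gr α fun v => g v (s v) := by
  classical
  unfold push
  ext z
  rw [mem_gr, Finset.mem_image]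
  constructor
  · rintro ⟨w, hw, rfl⟩
    obtain ⟨h1, h2⟩ := mem_gr.1 hw
    exact ⟨h1, by rw [h2]⟩
  · rintro ⟨h1, h2⟩
    exact ⟨(z.1, s z.1), mem_gr.2 ⟨h1, rfl⟩, by rw [← h2]⟩

instance finLine {α ι : Type} [Finite α] [Finite ι] : Finite (Combinatorics.Line α ι) :=
  Finite.of_injective (fun l : Combinatorics.Line α ι => l.idxFun) fun l l' h => by
    cases l; cases l'; simp only at h; subst h; rfl

section Step

variable (P : PS I) (α : Finset I) (T : Finset I → Prop)

/-- the letters: the copies of the pattern over `α` -/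
abbrev Let : Type := {e : I → P.X // Copy P α T e}

/-- the embedding of `P` given by a line -/
noncomputable def psi {ι : Type} (l : Combinatorics.Line (Let P α T) ι) (v : I) (x : P.X) :
    (ι → P.X) ⊕ (Combinatorics.Line (Let P α T) ι × P.X) :=
  open Classical in
  if v ∈ α then Sum.inl fun j => ((l.idxFun j).map fun e => e.1 v).getD x else Sum.inr (l, x)

theorem psi_mem {ι : Type} (l : Combinatorics.Line (Let P α T) ι) {v : I} (hv : v ∈ α) (x : P.X) :
    psi P α T l v x = Sum.inl fun j => ((l.idxFun j).map fun e => e.1 v).getD x := by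
  unfold psi; rw [if_pos hv]

theorem psi_not_mem {ι : Type} (l : Combinatorics.Line (Let P α T) ι) {v : I} (hv : v ∉ α)
    (x : P.X) : psi P α T l v x = Sum.inr (l, x) := by
  unfold psi; rw [if_neg hv]

theorem psi_injective {ι : Type} (l : Combinatorics.Line (Let P α T) ι) (v : I) :
    Function.Injective (psi P α T l v) := by
  intro x y h
  by_cases hv : v ∈ α
  · rw [psi_mem P α T l hv, psi_mem P α T l hv] at h
    obtain ⟨j, hj⟩ := l.proper
    have h1 := congrFun (Sum.inl.inj h) j
    simpa [hj] using h1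
  · rw [psi_not_mem P α T l hv, psi_not_mem P α T l hv] at h
    exact (Prod.mk.inj (Sum.inr.inj h)).2

/-- the marks of the new system -/
def mark (ι : Type) (t : Finset I)
    (q : I → (ι → P.X) ⊕ (Combinatorics.Line (Let P α T) ι × P.X)) : Prop :=
  (t ⊆ α ∧ ∃ y : I → ι → P.X, (∀ v ∈ t, q v = Sum.inl (y v)) ∧
    (T t ↔ ∀ j, (P.S t (fun v => y v j) ↔ T t))) ∨
  (¬ t ⊆ α ∧ ∃ (l : Combinatorics.Line (Let P α T) ι) (s : I → P.X),
    (∀ v ∈ t, q v = psi P α T l v (s v)) ∧ P.S t s)

theorem mark_psi {ι : Type} (l : Combinatorics.Line (Let P α T) ι) (t : Finset I)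
    (s : I → P.X) : mark P α T ι t (fun v => psi P α T l v (s v)) ↔ P.S t s := by
  classical
  by_cases ht : t ⊆ α
  · -- the value on the section of a line
    have key : (T t ↔ ∀ j, (P.S t (fun v => ((l.idxFun j).map fun e => e.1 v).getD (s v)) ↔ T t)) ↔
        P.S t s := by
      have h1 : (∀ j, (P.S t (fun v => ((l.idxFun j).map fun e => e.1 v).getD (s v)) ↔ T t)) ↔
          (P.S t s ↔ T t) := by
        constructor
        · intro h
          obtain ⟨j, hj⟩ := l.proper
          simpa [hj] using h j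
        · intro h j
          cases hj : l.idxFun j with
          | none => simpa using h
          | some e => simpa using e.2 t ht
      rw [h1]
      tauto
    constructor
    · rintro (⟨_, y, hy, h⟩ | ⟨h, _⟩)
      · rw [← key]
        have h2 : ∀ j, (P.S t (fun v => y v j) ↔
            P.S t (fun v => ((l.idxFun j).map fun e => e.1 v).getD (s v))) := by
          intro j
          refine P.loc_iff fun v hv => ?_
          have h3 : psi P α T l v (s v) = Sum.inl (y v) := hy v hv
          rw [psi_mem P α T l (ht hv)] at h3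
          exact (congrFun (Sum.inl.inj h3) j).symm
        simpa only [h2] using h
      · exact absurd ht h
    · intro h
      refine Or.inl ⟨ht, fun v j => ((l.idxFun j).map fun e => e.1 v).getD (s v), ?_, key.2 h⟩
      intro v hv
      exact psi_mem P α T l (ht hv) _
  · constructor
    · rintro (⟨h, _⟩ | ⟨_, l', s', hs', h⟩)
      · exact absurd h ht
      · obtain ⟨v0, hv0, hv0α⟩ := Finset.not_subset.1 ht
        have h1 : psi P α T l v0 (s v0) = psi P α T l' v0 (s' v0) := hs' v0 hv0
        rw [psi_not_mem P α T l hv0α, psi_not_mem P α T l' hv0α] at h1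
        obtain ⟨rfl, _⟩ := Prod.mk.inj (Sum.inr.inj h1)
        refine P.loc t s' s (fun v hv => ?_) h
        exact (psi_injective P α T l v (hs' v hv)).symm
    · intro h
      exact Or.inr ⟨ht, l, s, fun v _ => rfl, h⟩

/-- the new system -/
noncomputable def nxt [Finite I] (ι : Type) [Finite ι] : PS I where
  X := (ι → P.X) ⊕ (Combinatorics.Line (Let P α T) ι × P.X)
  fin := by
    have := P.fin
    infer_instance
  S := mark P α T ι
  loc := by
    rintro t q q' h (⟨ht, y, hy, hy'⟩ | ⟨ht, l, s, hs, hs'⟩)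
    · exact Or.inl ⟨ht, y, fun v hv => (h v hv).symm.trans (hy v hv), hy'⟩
    · exact Or.inr ⟨ht, l, s, fun v hv => (h v hv).symm.trans (hs v hv), hs'⟩

/-- One step of the partite construction. -/
theorem step [Finite I] [DecidableEq I] (κ : Type) [Finite κ] :
    ∃ Q : PS I,
      (∀ χ : Finset (I × Q.X) → κ, ∃ g, IsEmb P Q g ∧
        ∃ c, ∀ s, Copy P α T s → χ (gr α fun v => g v (s v)) = c) ∧
      (∀ D : Finset I → Prop, (∀ t ⊆ α, D t) → (∀ t s, 2 ≤ t.card → PM P t s → D t) →
        ∀ t s, 2 ≤ t.card → PM Q t s → D t) := by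
  classical
  have := P.fin
  obtain ⟨ι, _, hHJ⟩ := Combinatorics.Line.exists_mono_in_high_dimension (Let P α T) κ
  refine ⟨nxt P α T ι, fun χ => ?_, fun D hα hP t q ht hq => ?_⟩
  · obtain ⟨l, c, hc⟩ := hHJ fun w => χ (gr α fun v => Sum.inl fun j => (w j).1 v)
    refine ⟨psi P α T l, fun t s => mark_psi P α T l t s, c, fun s hs => ?_⟩
    rw [← hc ⟨s, hs⟩]
    congr 1
    refine gr_congr fun v hv => ?_
    rw [psi_mem P α T l hv]
    congr 1
    funext j
    rw [Combinatorics.Line.apply_def]
    cases hj : l.idxFun j <;> simp [hj]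
  · by_cases hcase : t ⊆ α
    · exact hα t hcase
    · obtain ⟨v0, hv0, hv0α⟩ := Finset.not_subset.1 hcase
      -- the line is given by `v0`
      have h1 : ∀ u ∈ t, u ≠ v0 → ∃ (l : Combinatorics.Line (Let P α T) ι) (s : I → P.X),
          q u = psi P α T l u (s u) ∧ q v0 = Sum.inr (l, s v0) := by
        intro u hu huv
        rcases hq u hu v0 hv0 huv with ⟨h, _⟩ | ⟨_, l, s, hs, _⟩
        · exact absurd (h (by simp)) hv0α
        · refine ⟨l, s, hs u (by simp), ?_⟩
          rw [hs v0 (by simp), psi_not_mem P α T l hv0α]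
      obtain ⟨u0, hu0, hu0v⟩ : ∃ u0 ∈ t, u0 ≠ v0 :=
        Finset.exists_mem_ne (by omega) v0
      obtain ⟨l, s0, _, hl⟩ := h1 u0 hu0 hu0v
      have h2 : ∀ u ∈ t, ∃ x, q u = psi P α T l u x := by
        intro u hu
        by_cases huv : u = v0
        · subst huv
          exact ⟨s0 u, by rw [hl, psi_not_mem P α T l hv0α]⟩
        · obtain ⟨l', s', h3, h4⟩ := h1 u hu huv
          rw [hl] at h4
          obtain ⟨rfl, _⟩ := Prod.mk.inj (Sum.inr.inj h4)
          exact ⟨s' u, h3⟩
      have : Nonempty P.X := ⟨s0 v0⟩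
      choose! s hs using h2
      refine hP t s ht fun u hu v hv huv => ?_
      rw [← mark_psi P α T l]
      have h5 := hq u hu v hv huv
      refine ((nxt P α T ι).loc_iff fun w hw => ?_).1 h5
      have hwt : w ∈ t := by
        rcases Finset.mem_insert.1 hw with rfl | hw
        · exact hu
        · rwa [Finset.mem_singleton.1 hw]
      exact hs w hwt

end Step

theorem IsEmb.copy {P Q : PS I} {g : I → P.X → Q.X} (hg : IsEmb P Q g) {α : Finset I}
    {T : Finset I → Prop} {s : I → P.X} (hs : Copy P α T s) : Copy Q α T fun v => g v (s v) :=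
  fun t ht => (hg t s).trans (hs t ht)

/-- The iteration of the steps of the partite construction. -/
theorem iter [Finite I] [DecidableEq I] (κ : Type) [Finite κ]
    (L : List (Finset I × (Finset I → Prop))) : ∀ P : PS I, ∃ Q : PS I,
      (∀ χ : Finset (I × Q.X) → κ, ∃ g, IsEmb P Q g ∧
        ∀ p ∈ L, ∃ c, ∀ s, Copy P p.1 p.2 s → χ (gr p.1 fun v => g v (s v)) = c) ∧
      (∀ D : Finset I → Prop, (∀ p ∈ L, ∀ t ⊆ p.1, D t) →
        (∀ t s, 2 ≤ t.card → PM P t s → D t) → ∀ t s, 2 ≤ t.card → PM Q t s → D t) := by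
  induction L with
  | nil =>
    intro P
    exact ⟨P, fun χ => ⟨fun _ x => x, fun _ _ => Iff.rfl, by simp⟩, fun D _ h => h⟩
  | cons p L ih =>
    intro P
    obtain ⟨P₁, h₁, hD₁⟩ := ih P
    obtain ⟨P₂, h₂, hD₂⟩ := step P₁ p.1 p.2 κ
    refine ⟨P₂, fun χ => ?_, fun D hL hP => ?_⟩
    · obtain ⟨g₂, hg₂, c₂, hc₂⟩ := h₂ χ
      obtain ⟨g₁, hg₁, hc₁⟩ := h₁ fun F => χ (push g₂ F)
      refine ⟨fun v x => g₂ v (g₁ v x), fun t s => (hg₂ t _).trans (hg₁ t s), fun p' hp' => ?_⟩
      rcases List.mem_cons.1 hp' with rfl | hp'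
      · exact ⟨c₂, fun s hs => hc₂ _ (hg₁.copy hs)⟩
      · obtain ⟨c, hc⟩ := hc₁ p' hp'
        refine ⟨c, fun s hs => ?_⟩
        rw [← hc s hs, push_gr]
    · exact hD₂ D (hL p List.mem_cons_self)
        (hD₁ D (fun p' hp' => hL p' (List.mem_cons_of_mem _ hp')) hP)

end Pool.Agent.H439_Hyper
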