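import Pool.Agent.H439_Hyper.Core

/-!
# The two partite constructions and the completion
-/

set_option autoImplicit false

namespace Pool.Agent.H439_Hyper

open Finset Function

theorem triple_eq {V : Type} [LinearOrder V] {x y z x' y' z' : V} (h1 : x < y) (h2 : y < z)
    (h1' : x' < y') (h2' : y' < z') (h : ({x, y, z} : Finset V) = {x', y', z'}) :
    x = x' ∧ y = y' ∧ z = z' := by
  have hx : x ∈ ({x', y', z'} : Finset V) := h ▸ (by simp)
  have hy : y ∈ ({x', y', z'} : Finset V) := h ▸ (by simp)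
  have hz : z ∈ ({x', y', z'} : Finset V) := h ▸ (by simp)
  simp only [Finset.mem_insert, Finset.mem_singleton] at hx hy hz
  have h3 := h1.trans h2
  have h3' := h1'.trans h2'
  rcases hx with rfl | rfl | rfl <;> rcases hy with rfl | rfl | rfl <;>
    rcases hz with rfl | rfl | rfl <;>
    first
      | exact ⟨rfl, rfl, rfl⟩
      | exact absurd h1 (lt_irrefl _)
      | exact absurd h2 (lt_irrefl _)
      | exact absurd h3 (lt_irrefl _)
      | exact absurd h1 (lt_asymm h1')
      | exact absurd h2 (lt_asymm h2')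
      | exact absurd h1 (lt_asymm h2')
      | exact absurd h2 (lt_asymm h1')
      | exact absurd h1 (lt_asymm h3')
      | exact absurd h2 (lt_asymm h3')

theorem exists_linearOrder (X : Type) [Finite X] : Nonempty (LinearOrder X) := by
  obtain ⟨n, ⟨e⟩⟩ := Finite.exists_equiv_fin X
  exact ⟨LinearOrder.lift' e e.injective⟩

theorem trans_apply' {m n : ℕ} {V : Type} [LinearOrder V] (a : Fin m ↪o Fin n) (b : Fin n ↪o V)
    (x : Fin m) : (a.trans b) x = b (a x) := rfl

/-- The class of all finite linearly ordered 3-hypertournaments is Ramsey. -/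
theorem step1 {m n : ℕ} (fA : Fin m → Fin m → Fin m → Prop) (fB : Fin n → Fin n → Fin n → Prop)
    (κ : Type) [Finite κ] [Nonempty κ] :
    ∃ (V : Type) (_ : LinearOrder V) (_ : Finite V) (f : V → V → V → Prop),
      Arrow fA fB f κ := by
  classical
  obtain ⟨N, hN⟩ := ramsey0 m n κ
  obtain ⟨Q, hQ, -⟩ := general (I := Fin N) (Idx := Fin n ↪o Fin N) (κ := κ)
    (fun b => img b)
    (fun b t => ∃ x y z, x < y ∧ y < z ∧ fB x y z ∧ t = {b x, b y, b z})
    (fun α t => ∃ a : Fin m ↪o Fin N, img a = α ∧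
      ∃ x y z, x < y ∧ y < z ∧ fA x y z ∧ t = {a x, a y, a z})
    (fun _ => True)
    (fun b α => ∃ a : Fin m ↪o Fin n, Pres fA fB a ∧ α = img (a.trans b))
    (by
      rintro b t ⟨x, y, z, _, _, _, rfl⟩
      exact ⟨b x, by simp⟩)
    (by
      rintro b α ⟨a, ha, rfl⟩
      refine ⟨?_, trivial, ?_⟩
      · intro v hv
        obtain ⟨x, rfl⟩ := mem_img.1 hv
        exact mem_img.2 ⟨a x, rfl⟩
      · intro t ht
        constructor
        · rintro ⟨x, y, z, hxy, hyz, hf, rfl⟩
          obtain ⟨x', hx'⟩ := mem_img.1 (ht (by simp : b x ∈ ({b x, b y, b z} : Finset (Fin N))))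
          obtain ⟨y', hy'⟩ := mem_img.1 (ht (by simp : b y ∈ ({b x, b y, b z} : Finset (Fin N))))
          obtain ⟨z', hz'⟩ := mem_img.1 (ht (by simp : b z ∈ ({b x, b y, b z} : Finset (Fin N))))
          have h1 : a x' = x := b.injective hx'
          have h2 : a y' = y := b.injective hy'
          have h3 : a z' = z := b.injective hz'
          subst h1 h2 h3
          refine ⟨a.trans b, rfl, x', y', z', a.lt_iff_lt.1 hxy, a.lt_iff_lt.1 hyz, ?_, rfl⟩
          exact (ha x' y' z' (a.lt_iff_lt.1 hxy) (a.lt_iff_lt.1 hyz)).1 hf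
        · rintro ⟨a', ha', x, y, z, hxy, hyz, hf, rfl⟩
          obtain rfl := img_inj ha'
          exact ⟨a x, a y, a z, a.strictMono hxy, a.strictMono hyz,
            (ha x y z hxy hyz).2 hf, rfl⟩)
    (by
      intro χ
      obtain ⟨b, c, hb⟩ := hN χ
      refine ⟨b, c, ?_⟩
      rintro α ⟨a, _, rfl⟩
      exact hb a)
  have := Q.fin
  obtain ⟨lo⟩ := exists_linearOrder Q.X
  refine ⟨Lex (Fin N × Q.X), inferInstance, inferInstanceAs (Finite (Fin N × Q.X)),
    fun p q r => ∃ s : Fin N → Q.X, s (ofLex p).1 = (ofLex p).2 ∧ s (ofLex q).1 = (ofLex q).2 ∧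
      s (ofLex r).1 = (ofLex r).2 ∧ Q.S {(ofLex p).1, (ofLex q).1, (ofLex r).1} s, fun χ => ?_⟩
  obtain ⟨b, s, hs, c, hc⟩ := hQ fun F => χ (F.map toLex.toEmbedding)
  refine ⟨lexEmb b s, ?_, c, fun a ha => ?_⟩
  · intro x y z hxy hyz
    have h1 : Q.S {b x, b y, b z} s ↔ fB x y z := by
      rw [hs]
      · constructor
        · rintro ⟨x', y', z', hxy', hyz', hf, heq⟩
          obtain ⟨h1, h2, h3⟩ := triple_eq (b.strictMono hxy) (b.strictMono hyz)
            (b.strictMono hxy') (b.strictMono hyz') heq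
          rw [b.injective h1, b.injective h2, b.injective h3]
          exact hf
        · intro hf
          exact ⟨x, y, z, hxy, hyz, hf, rfl⟩
      · intro v hv
        simp only [Finset.mem_insert, Finset.mem_singleton] at hv
        rcases hv with rfl | rfl | rfl <;> exact mem_img.2 ⟨_, rfl⟩
    rw [← h1]
    constructor
    · rintro ⟨s', h2, h3, h4, h5⟩
      refine Q.loc _ s' s ?_ h5
      intro v hv
      simp only [Finset.mem_insert, Finset.mem_singleton] at hv
      rcases hv with rfl | rfl | rfl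
      · exact h2
      · exact h3
      · exact h4
    · intro h
      exact ⟨s, rfl, rfl, rfl, h⟩
  · rw [img_lexEmb]
    exact hc _ ⟨a, ha, rfl⟩

end Pool.Agent.H439_Hyper
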